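import Pool.Agent.Helper9.MP.Lat

/-!
# MP_bde085_nt, module CHI: discriminant of an isotypic sublattice
-/

set_option autoImplicit false

namespace Pool.Agent.Helper96.MP

open Module

/-- A subgroup `L` with a real basis `e0`: the intersection with a subspace `U` spanned by
`L ∩ U` has a basis. -/
theorem chi_basis (V : Type) [AddCommGroup V] [Module ℝ V]
    (L : AddSubgroup V) (U : Submodule ℝ V) (m0 : ℕ) (e0 : Fin m0 → V)
    (h0 : ZB (L : Set V) ⊤ m0 e0)
    (hU : Submodule.span ℝ {x : V | x ∈ L ∧ x ∈ U} = U) :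
    ∃ (m : ℕ) (e : Fin m → V), ZB (L : Set V) U m e := by
  have he0L : ∀ i, e0 i ∈ L := by
    intro i
    have := (h0.lat (e0 i)).2 ⟨Pi.single i 1, by
      rw [Finset.sum_eq_single i]
      · simp
      · intro j _ hj
        simp [Pi.single_eq_of_ne hj]
      · intro h; exact absurd (Finset.mem_univ i) h⟩
    exact this.1
  -- the ℤ-basis of L
  let f0 : Fin m0 → L := fun i => ⟨e0 i, he0L i⟩
  have hli0 : LinearIndependent ℤ f0 := by
    rw [Fintype.linearIndependent_iff]
    intro g hg i
    have h1 : ∑ i, (g i : ℝ) • e0 i = 0 := by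
      have h2 := congrArg (fun x : L => (x : V)) hg
      simp only [AddSubgroup.val_finsetSum, AddSubgroup.coe_zsmul, AddSubgroup.coe_zero, f0] at h2
      rw [← h2]
      apply Finset.sum_congr rfl
      intro j _
      exact Int.cast_smul_eq_zsmul ℝ (g j) (e0 j)
    have h3 := (Fintype.linearIndependent_iff.1 h0.li) (fun i => (g i : ℝ)) h1 i
    exact_mod_cast h3
  have hsp0 : ⊤ ≤ Submodule.span ℤ (Set.range f0) := by
    intro x _
    obtain ⟨k, hk⟩ := (h0.lat (x : V)).1 ⟨x.2, trivial⟩
    have h1 : x = ∑ i, k i • f0 i := by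
      apply Subtype.ext
      rw [hk]
      simp only [AddSubgroup.val_finsetSum, AddSubgroup.coe_zsmul, f0]
      apply Finset.sum_congr rfl
      intro j _
      exact Int.cast_smul_eq_zsmul ℝ (k j) (e0 j)
    rw [h1]
    exact Submodule.sum_mem _ fun i _ => Submodule.smul_mem _ _ (Submodule.subset_span ⟨i, rfl⟩)
  let b0 : Basis (Fin m0) ℤ L := Basis.mk hli0 hsp0
  let N : Submodule ℤ L := 
    { carrier := {x : L | (x : V) ∈ U}
      add_mem' := by
        intro a b ha hb
        exact U.add_mem ha hb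
      zero_mem' := by
        show ((0 : L) : V) ∈ U
        exact U.zero_mem
      smul_mem' := by
        intro c x hx
        show ((c • x : L) : V) ∈ U
        rw [AddSubgroup.coe_zsmul]
        exact U.toAddSubgroup.zsmul_mem hx c }
  obtain ⟨m, snf⟩ := Submodule.smithNormalForm b0 N
  let e : Fin m → V := fun i => ((snf.bN i : L) : V)
  let g : Fin m0 → V := fun j => (snf.bM j : V)
  have hspg : ⊤ ≤ Submodule.span ℝ (Set.range g) := by
    rw [← h0.span, Submodule.span_le]
    rintro _ ⟨i, rfl⟩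
    have h1 := snf.bM.sum_repr (f0 i)
    have h2 := congrArg (fun x : L => (x : V)) h1
    simp only [AddSubgroup.val_finsetSum, AddSubgroup.coe_zsmul, f0] at h2
    rw [SetLike.mem_coe, ← h2]
    apply Submodule.sum_mem
    intro j _
    rw [← Int.cast_smul_eq_zsmul ℝ]
    exact Submodule.smul_mem _ _ (Submodule.subset_span ⟨j, rfl⟩)
  have hrank : Fintype.card (Fin m0) = Module.finrank ℝ V := by
    have hb : ⊤ ≤ Submodule.span ℝ (Set.range e0) := by rw [h0.span]
    exact (Module.finrank_eq_card_basis (Basis.mk h0.li hb)).symm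
  have hlig : LinearIndependent ℝ g :=
    linearIndependent_of_top_le_span_of_card_eq_finrank hspg hrank
  have heg : ∀ i, e i = (snf.a i : ℝ) • g (snf.f i) := by
    intro i
    have h1 := congrArg (fun x : L => (x : V)) (snf.snf i)
    simp only [AddSubgroup.coe_zsmul] at h1
    show ((snf.bN i : L) : V) = _
    rw [h1, Int.cast_smul_eq_zsmul]
  have hane : ∀ i, (snf.a i : ℝ) ≠ 0 := by
    intro i h
    have h1 : e i = 0 := by rw [heg, h, zero_smul]
    have h2 : snf.bN i = 0 := by
      apply Subtype.ext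
      apply Subtype.ext
      exact h1
    exact snf.bN.ne_zero i h2
  have hlie : LinearIndependent ℝ e := by
    have h1 := (hlig.comp snf.f snf.f.injective).units_smul (fun i => Units.mk0 _ (hane i))
    have h2 : e = (fun i => Units.mk0 _ (hane i)) • (g ∘ snf.f) := by
      funext i
      rw [heg]
      rfl
    rw [h2]
    exact h1
  have hlat : ∀ v : V, (v ∈ (L : Set V) ∧ v ∈ U) ↔ ∃ k : Fin m → ℤ, v = ∑ i, (k i : ℝ) • e i := by
    intro v
    constructor
    · rintro ⟨hv, hvU⟩
      let x : N := ⟨⟨v, hv⟩, hvU⟩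
      refine ⟨fun i => snf.bN.repr x i, ?_⟩
      have h1 := snf.bN.sum_repr x
      have h2 := congrArg (fun x : N => ((x : L) : V)) h1
      simp only [Submodule.coe_sum, AddSubgroup.val_finsetSum, Submodule.coe_smul,
        AddSubgroup.coe_zsmul] at h2
      have h3 : v = ((x : L) : V) := rfl
      rw [h3, ← h2]
      apply Finset.sum_congr rfl
      intro j _
      exact (Int.cast_smul_eq_zsmul ℝ _ (e j)).symm
    · rintro ⟨k, rfl⟩
      constructor
      · apply L.sum_mem
        intro i _
        rw [Int.cast_smul_eq_zsmul]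
        exact L.zsmul_mem (snf.bN i : L).2 _
      · apply U.sum_mem
        intro i _
        exact U.smul_mem _ (snf.bN i).2
  refine ⟨m, e, hlie, ?_, hlat⟩
  apply le_antisymm
  · rw [Submodule.span_le]
    rintro _ ⟨i, rfl⟩
    exact (snf.bN i).2
  · rw [← hU, Submodule.span_le]
    intro x hx
    obtain ⟨k, hk⟩ := (hlat x).1 hx
    rw [SetLike.mem_coe, hk]
    exact Submodule.sum_mem _ fun i _ => Submodule.smul_mem _ _ (Submodule.subset_span ⟨i, rfl⟩)

theorem st_CHI : ST_CHI := by
  intro V _ _ _ B L P U n m0 e0 hn h0 hPL hPU hPn hPB hBL hdual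
  have hn0 : (n : ℝ) ≠ 0 := by
    have : (1 : ℝ) ≤ n := by exact_mod_cast hn
    linarith
  have hU : Submodule.span ℝ {x : V | x ∈ L ∧ x ∈ U} = U := by
    apply le_antisymm
    · rw [Submodule.span_le]
      rintro x ⟨_, hx⟩
      exact hx
    · intro u hu
      have h1 : u ∈ Submodule.span ℝ (Set.range e0) := by rw [h0.span]; trivial
      have h2 : u = (n : ℝ)⁻¹ • P u := by
        rw [hPn u hu, smul_smul, inv_mul_cancel₀ hn0, one_smul]
      rw [h2]
      apply Submodule.smul_mem
      have h3 : P u ∈ (Submodule.span ℝ (Set.range e0)).map P := ⟨u, h1, rfl⟩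
      rw [Submodule.map_span] at h3
      revert h3
      apply Submodule.span_mono
      rintro _ ⟨_, ⟨i, rfl⟩, rfl⟩
      refine ⟨hPL _ ?_, hPU _⟩
      have := (h0.lat (e0 i)).2 ⟨Pi.single i 1, by
        rw [Finset.sum_eq_single i]
        · simp
        · intro j _ hj
          simp [Pi.single_eq_of_ne hj]
        · intro h; exact absurd (Finset.mem_univ i) h⟩
      exact this.1
  obtain ⟨m, e, he⟩ := chi_basis V L U m0 e0 h0 hU
  have heLU : ∀ i, e i ∈ L ∧ e i ∈ U := by
    intro i
    exact (he.lat (e i)).2 ⟨Pi.single i 1, by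
      rw [Finset.sum_eq_single i]
      · simp
      · intro j _ hj
        simp [Pi.single_eq_of_ne hj]
      · intro h; exact absurd (Finset.mem_univ i) h⟩
  -- nondegeneracy
  have hnd : ∀ y, (∀ x, B y x = 0) → y = 0 := by
    intro y hy
    have h1 : ∀ t : ℝ, (2 * t) • y ∈ L := by
      intro t
      have := hdual (t • y) (fun x _ => ⟨0, by simp [hy x]⟩)
      rwa [smul_smul] at this
    have hy1 : y ∈ Submodule.span ℝ (Set.range e0) := by rw [h0.span]; trivial
    rw [Submodule.mem_span_range_iff_exists_fun] at hy1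
    obtain ⟨c, hc⟩ := hy1
    have hc0 : ∀ i, c i = 0 := by
      intro i
      by_contra hci
      obtain ⟨k, hk⟩ := (h0.lat _).1 ⟨h1 (1 / (4 * c i)), trivial⟩
      rw [← hc, Finset.smul_sum] at hk
      have h2 : ∑ j, (2 * (1 / (4 * c i)) * c j - (k j : ℝ)) • e0 j = 0 := by
        simp only [sub_smul, Finset.sum_sub_distrib]
        rw [sub_eq_zero, ← hk]
        apply Finset.sum_congr rfl
        intro j _
        rw [smul_smul]
      have h3 := (Fintype.linearIndependent_iff.1 h0.li) _ h2 i
      have h4 : (k i : ℝ) = 1 / 2 := by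
        have h5 : 2 * (1 / (4 * c i)) * c i = 1 / 2 := by
          field_simp
          norm_num
        simp only [h5] at h3
        linarith
      have h5 : ((2 * k i : ℤ) : ℝ) = ((1 : ℤ) : ℝ) := by
        push_cast
        rw [h4]; norm_num
      have h6 : 2 * k i = 1 := by exact_mod_cast h5
      omega
    rw [← hc]
    simp [hc0]
  have hndU : ∀ u ∈ U, (∀ i, B u (e i) = 0) → u = 0 := by
    intro u hu h
    have h1 : ∀ x ∈ U, B u x = 0 := by
      intro x hx
      rw [← he.span] at hx
      rw [Submodule.mem_span_range_iff_exists_fun] at hx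
      obtain ⟨c, rfl⟩ := hx
      rw [map_sum]
      apply Finset.sum_eq_zero
      intro i _
      rw [map_smul, h i, smul_zero]
    apply hnd
    intro x
    have h2 := hPB u x
    rw [h1 _ (hPU x), hPn u hu, map_smul, LinearMap.smul_apply, smul_eq_mul] at h2
    rcases mul_eq_zero.1 h2 with h3 | h3
    · exact absurd h3 hn0
    · exact h3
  set G : Matrix (Fin m) (Fin m) ℝ := Matrix.of fun i j => B (e i) (e j) with hG
  have hdet : G.det ≠ 0 := by
    intro hd
    obtain ⟨v, hv, hv0⟩ := Matrix.exists_vecMul_eq_zero_iff.2 hd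
    apply hv
    have h1 : (∑ i, v i • e i) = 0 := by
      apply hndU
      · exact U.sum_mem fun i _ => U.smul_mem _ (heLU i).2
      · intro j
        have h2 := congrFun hv0 j
        simp only [Matrix.vecMul, dotProduct, hG, Matrix.of_apply, Pi.zero_apply] at h2
        rw [map_sum, LinearMap.sum_apply, ← h2]
        apply Finset.sum_congr rfl
        intro i _
        rw [map_smul, LinearMap.smul_apply, smul_eq_mul]
    funext i
    exact (Fintype.linearIndependent_iff.1 he.li) v h1 i
  -- dual basis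
  let f : Fin m → V := fun j => ∑ i, (G⁻¹ j i) • e i
  have hfU : ∀ j, f j ∈ U := fun j => U.sum_mem fun i _ => U.smul_mem _ (heLU i).2
  have hfe : ∀ j k, B (f j) (e k) = if j = k then 1 else 0 := by
    intro j k
    have h1 : (G⁻¹ * G) j k = if j = k then 1 else 0 := by
      rw [Matrix.nonsing_inv_mul _ (isUnit_iff_ne_zero.2 hdet), Matrix.one_apply]
    rw [← h1, Matrix.mul_apply]
    show B (∑ i, (G⁻¹ j i) • e i) (e k) = _
    rw [map_sum, LinearMap.sum_apply]
    apply Finset.sum_congr rfl
    intro i _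
    rw [map_smul, LinearMap.smul_apply, smul_eq_mul]
    rfl
  have hnf : ∀ j, (2 : ℝ) • ((n : ℝ) • f j) ∈ L := by
    intro j
    apply hdual
    intro x hx
    obtain ⟨k, hk⟩ := (he.lat (P x)).1 ⟨hPL x hx, hPU x⟩
    refine ⟨k j, ?_⟩
    rw [← hPn _ (hfU j), hPB, hk, map_sum, Finset.sum_eq_single j]
    · rw [map_smul, hfe, if_pos rfl, smul_eq_mul, mul_one]
    · intro i _ hij
      rw [map_smul, hfe, if_neg (Ne.symm hij), smul_zero]
    · intro h; exact absurd (Finset.mem_univ j) h
  choose M hM using fun j => (he.lat ((2 : ℝ) • ((n : ℝ) • f j))).1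
    ⟨hnf j, U.smul_mem _ (U.smul_mem _ (hfU j))⟩
  have hMH : (Matrix.of fun j i => (M j i : ℝ)) = (2 * (n : ℝ)) • G⁻¹ := by
    ext j i
    have h1 := hM j
    have h2 : ∑ i, (2 * (n : ℝ) * G⁻¹ j i - (M j i : ℝ)) • e i = 0 := by
      simp only [sub_smul, Finset.sum_sub_distrib]
      rw [sub_eq_zero, ← h1, smul_smul]
      show _ = (2 * (n : ℝ)) • ∑ i, (G⁻¹ j i) • e i
      rw [Finset.smul_sum]
      apply Finset.sum_congr rfl
      intro i _
      rw [smul_smul]
    have h3 := (Fintype.linearIndependent_iff.1 he.li) _ h2 i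
    simp only [Matrix.of_apply, Matrix.smul_apply, smul_eq_mul]
    linarith
  refine ⟨m, e, he, hdet, ?_⟩
  have hdM : ((Matrix.of fun j i => M j i : Matrix (Fin m) (Fin m) ℤ).det : ℝ) =
      (2 * (n : ℝ)) ^ m * (G.det)⁻¹ := by
    have h1 : ((Matrix.of fun j i => M j i : Matrix (Fin m) (Fin m) ℤ).det : ℝ) =
        (Matrix.of fun j i => (M j i : ℝ)).det := by
      have := (Int.castRingHom ℝ).map_det (Matrix.of fun j i => M j i : Matrix (Fin m) (Fin m) ℤ)
      rw [eq_intCast] at this
      rw [this]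
      rfl
    rw [h1, hMH, Matrix.det_smul, Matrix.det_nonsing_inv, Ring.inverse_eq_inv', Fintype.card_fin]
  have hpow : 0 < (2 * (n : ℝ)) ^ m := by
    have : (1 : ℝ) ≤ n := by exact_mod_cast hn
    positivity
  set D : ℤ := (Matrix.of fun j i => M j i : Matrix (Fin m) (Fin m) ℤ).det with hD
  have hD0 : D ≠ 0 := by
    intro h
    rw [h] at hdM
    have : (2 * (n : ℝ)) ^ m * (G.det)⁻¹ ≠ 0 := mul_ne_zero hpow.ne' (inv_ne_zero hdet)
    exact this (by rw [← hdM]; simp)
  have hD1 : (1 : ℝ) ≤ |(D : ℝ)| := by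
    have : (1 : ℤ) ≤ |D| := Int.one_le_abs hD0
    exact_mod_cast this
  have h5 : |(D : ℝ)| * |G.det| = (2 * (n : ℝ)) ^ m := by
    rw [hdM, abs_mul, abs_inv, abs_of_pos hpow, mul_assoc, inv_mul_cancel₀ (abs_ne_zero.2 hdet),
      mul_one]
  calc |G.det| = 1 * |G.det| := (one_mul _).symm
    _ ≤ |(D : ℝ)| * |G.det| := mul_le_mul_of_nonneg_right hD1 (abs_nonneg _)
    _ = _ := h5

end Pool.Agent.Helper96.MP
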