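import Pool.Agent.Helper96.MP.Defs
import Pool.Agent.Helper53.Dil.Area

set_option autoImplicit false

namespace Pool.Agent.Helper96.MP

open Complex MeasureTheory Filter Topology
open scoped MatrixGroups

/-! basics on the Möbius action -/

theorem csp_mob_def (g : SL(2, ℤ)) (z : ℂ) : mob g z =
    (((g 0 0 : ℤ) : ℂ) * z + ((g 0 1 : ℤ) : ℂ)) / jj g z := rfl

theorem csp_det (g : SL(2, ℤ)) : (g 0 0) * (g 1 1) - (g 0 1) * (g 1 0) = 1 := by
  have := g.det_coe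
  rwa [Matrix.det_fin_two] at this

theorem csp_jj_im (g : SL(2, ℤ)) (z : ℂ) : (jj g z).im = (g 1 0 : ℝ) * z.im := by
  simp [jj]

theorem csp_jj_ne (g : SL(2, ℤ)) {z : ℂ} (hz : z ∈ UH) : jj g z ≠ 0 := by
  intro h
  have h1 := congrArg Complex.im h
  rw [csp_jj_im, zero_im] at h1
  have h2 : (g 1 0 : ℝ) = 0 := by
    rcases mul_eq_zero.1 h1 with h | h
    · exact h
    · exact absurd h (ne_of_gt hz)
  have h3 : g 1 0 = 0 := by exact_mod_cast h2
  have h4 : g 1 1 = 0 := by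
    rw [jj, h3] at h
    have : ((g 1 1 : ℤ) : ℂ) = 0 := by simpa using h
    exact_mod_cast this
  have h5 := csp_det g
  rw [h3, h4] at h5
  simp at h5

theorem csp_im_mob (g : SL(2, ℤ)) {z : ℂ} (hz : z ∈ UH) :
    (mob g z).im = z.im / ‖jj g z‖ ^ 2 := by
  have hne := csp_jj_ne g hz
  have h1 : ((csp_det g : (g 0 0) * (g 1 1) - (g 0 1) * (g 1 0) = 1)) = csp_det g := rfl
  have h2 : ((g 0 0 : ℤ) : ℝ) * (g 1 1 : ℤ) - (g 0 1 : ℤ) * (g 1 0 : ℤ) = 1 := by
    exact_mod_cast csp_det g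
  rw [csp_mob_def, Complex.div_im, ← Complex.normSq_eq_norm_sq]
  have h3 : Complex.normSq (jj g z) ≠ 0 := by
    rw [Ne, Complex.normSq_eq_zero]; exact hne
  rw [div_sub_div_same, div_left_inj' h3]
  simp only [jj, add_re, add_im, mul_re, mul_im, intCast_re, intCast_im, zero_mul, sub_zero,
    add_zero]
  linear_combination z.im * h2

theorem csp_mem (g : SL(2, ℤ)) {z : ℂ} (hz : z ∈ UH) : mob g z ∈ UH := by
  show 0 < (mob g z).im
  rw [csp_im_mob g hz]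
  have := norm_pos_iff.2 (csp_jj_ne g hz)
  have h : 0 < z.im := hz
  positivity

theorem csp_jj_mul (g g' : SL(2, ℤ)) {z : ℂ} (hz : z ∈ UH) :
    jj (g * g') z = jj g (mob g' z) * jj g' z := by
  have hne := csp_jj_ne g' hz
  have e1 : (g * g') 1 0 = g 1 0 * g' 0 0 + g 1 1 * g' 1 0 := by
    rw [Matrix.SpecialLinearGroup.coe_mul, Matrix.mul_apply, Fin.sum_univ_two]
  have e2 : (g * g') 1 1 = g 1 0 * g' 0 1 + g 1 1 * g' 1 1 := by
    rw [Matrix.SpecialLinearGroup.coe_mul, Matrix.mul_apply, Fin.sum_univ_two]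
  have h1 : jj g (mob g' z) = ((g 1 0 : ℤ) : ℂ) * (mob g' z) + ((g 1 1 : ℤ) : ℂ) := rfl
  rw [h1, csp_mob_def, add_mul, mul_assoc, div_mul_cancel₀ _ hne]
  simp only [jj, e1, e2]
  push_cast
  ring

theorem csp_mob_mul (g g' : SL(2, ℤ)) {z : ℂ} (hz : z ∈ UH) :
    mob (g * g') z = mob g (mob g' z) := by
  have hne := csp_jj_ne g' hz
  have hne2 := csp_jj_ne g (csp_mem g' hz)
  have e1 : (g * g') 0 0 = g 0 0 * g' 0 0 + g 0 1 * g' 1 0 := by
    rw [Matrix.SpecialLinearGroup.coe_mul, Matrix.mul_apply, Fin.sum_univ_two]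
  have e2 : (g * g') 0 1 = g 0 0 * g' 0 1 + g 0 1 * g' 1 1 := by
    rw [Matrix.SpecialLinearGroup.coe_mul, Matrix.mul_apply, Fin.sum_univ_two]
  rw [csp_mob_def, csp_mob_def g (mob g' z), csp_jj_mul g g' hz, div_eq_div_iff
    (mul_ne_zero hne2 hne) hne2, csp_mob_def g' z, e1, e2]
  have h2 : (((g 0 0 : ℤ) : ℂ) * ((((g' 0 0 : ℤ) : ℂ) * z + ((g' 0 1 : ℤ) : ℂ)) / jj g' z) +
      ((g 0 1 : ℤ) : ℂ)) * (jj g (mob g' z) * jj g' z) =
      (((g 0 0 : ℤ) : ℂ) * (((g' 0 0 : ℤ) : ℂ) * z + ((g' 0 1 : ℤ) : ℂ)) +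
      ((g 0 1 : ℤ) : ℂ) * jj g' z) * jj g (mob g' z) := by
    field_simp
  rw [← csp_mob_def g' z] at h2 ⊢
  rw [h2]
  simp only [jj]
  push_cast
  ring

theorem csp_mob_one (z : ℂ) : mob 1 z = z := by
  simp [csp_mob_def, jj]

theorem csp_inv_mob (g : SL(2, ℤ)) {z : ℂ} (hz : z ∈ UH) : mob g⁻¹ (mob g z) = z := by
  rw [← csp_mob_mul _ _ hz, inv_mul_cancel, csp_mob_one]

theorem csp_mob_inv (g : SL(2, ℤ)) {z : ℂ} (hz : z ∈ UH) : mob g (mob g⁻¹ z) = z := by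
  rw [← csp_mob_mul _ _ hz, mul_inv_cancel, csp_mob_one]

theorem csp_T (k : ℤ) (z : ℂ) : mob (ModularGroup.T ^ k) z = z + k ∧
    jj (ModularGroup.T ^ k) z = 1 := by
  have h := ModularGroup.coe_T_zpow k
  have h00 : (ModularGroup.T ^ k) 0 0 = 1 := by rw [h]; rfl
  have h01 : (ModularGroup.T ^ k) 0 1 = k := by rw [h]; rfl
  have h10 : (ModularGroup.T ^ k) 1 0 = 0 := by rw [h]; rfl
  have h11 : (ModularGroup.T ^ k) 1 1 = 1 := by rw [h]; rfl
  have h1 : jj (ModularGroup.T ^ k) z = 1 := by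
    rw [jj, h10, h11]; simp
  refine ⟨?_, h1⟩
  rw [csp_mob_def, h1, h00, h01]
  simp

theorem csp_deriv (g : SL(2, ℤ)) {z : ℂ} (hz : z ∈ UH) :
    HasDerivAt (mob g) ((jj g z ^ 2)⁻¹) z := by
  have hne := csp_jj_ne g hz
  have h1 : HasDerivAt (fun w : ℂ => ((g 0 0 : ℤ) : ℂ) * w + ((g 0 1 : ℤ) : ℂ))
      ((g 0 0 : ℤ) : ℂ) z := by
    simpa using ((hasDerivAt_id z).const_mul ((g 0 0 : ℤ) : ℂ)).add_const ((g 0 1 : ℤ) : ℂ)
  have h2 : HasDerivAt (fun w : ℂ => jj g w) ((g 1 0 : ℤ) : ℂ) z := by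
    simpa [jj] using ((hasDerivAt_id z).const_mul ((g 1 0 : ℤ) : ℂ)).add_const ((g 1 1 : ℤ) : ℂ)
  have h3 := h1.div h2 hne
  have h4 : ((g 0 0 : ℤ) : ℂ) * (g 1 1 : ℤ) - (g 0 1 : ℤ) * (g 1 0 : ℤ) = 1 := by
    exact_mod_cast csp_det g
  refine h3.congr_deriv ?_
  rw [inv_eq_one_div]
  congr 1
  simp only [jj]
  linear_combination h4

/-- the slashed function -/
noncomputable def csp_f (h : ℂ → ℂ) (g : SL(2, ℤ)) (z : ℂ) : ℂ :=
  if 0 < z.im then h (mob g z) / jj g z ^ 2 else 0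

section
variable {N : ℕ} {h : ℂ → ℂ}

theorem csp_f_pos (g : SL(2, ℤ)) {z : ℂ} (hz : z ∈ UH) :
    csp_f h g z = h (mob g z) / jj g z ^ 2 := if_pos hz

theorem csp_f_neg (g : SL(2, ℤ)) {z : ℂ} (hz : z ∉ UH) : csp_f h g z = 0 := if_neg hz

theorem csp_uh_add (z : ℂ) (k : ℝ) : (z + (k : ℂ)) ∈ UH ↔ z ∈ UH := by
  show 0 < (z + (k : ℂ)).im ↔ 0 < z.im
  simp

theorem csp_f_T (g : SL(2, ℤ)) (k : ℤ) (z : ℂ) :
    csp_f h (g * ModularGroup.T ^ k) z = csp_f h g (z + k) := by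
  have hiff : (z + (k : ℂ)) ∈ UH ↔ z ∈ UH := by
    have := csp_uh_add z (k : ℝ)
    simpa using this
  by_cases hz : z ∈ UH
  · rw [csp_f_pos _ hz, csp_f_pos _ (hiff.2 hz), csp_mob_mul _ _ hz, csp_jj_mul _ _ hz,
      (csp_T k z).1, (csp_T k z).2, mul_one]
  · rw [csp_f_neg _ hz, csp_f_neg _ (fun h' => hz (hiff.1 h'))]

theorem csp_f_left (hinv : ∀ g ∈ CongruenceSubgroup.Gamma0 N, ∀ z ∈ UH,
    h (mob g z) = jj g z ^ 2 * h z) (γ : SL(2, ℤ)) (hγ : γ ∈ CongruenceSubgroup.Gamma0 N)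
    (g : SL(2, ℤ)) (z : ℂ) : csp_f h (γ * g) z = csp_f h g z := by
  by_cases hz : z ∈ UH
  · rw [csp_f_pos _ hz, csp_f_pos _ hz, csp_mob_mul _ _ hz, csp_jj_mul _ _ hz,
      hinv γ hγ _ (csp_mem g hz), mul_pow]
    have h1 := csp_jj_ne γ (csp_mem g hz)
    have h2 := csp_jj_ne g hz
    field_simp
  · rw [csp_f_neg _ hz, csp_f_neg _ hz]

theorem csp_conj (N : ℕ) (g : SL(2, ℤ)) :
    g * ModularGroup.T ^ (N : ℤ) * g⁻¹ ∈ CongruenceSubgroup.Gamma0 N := by
  rw [CongruenceSubgroup.Gamma0_mem]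
  have h := ModularGroup.coe_T_zpow (N : ℤ)
  have i00 : g⁻¹ 0 0 = g 1 1 := by rw [Matrix.SpecialLinearGroup.SL2_inv_expl]; rfl
  have i10 : g⁻¹ 1 0 = - g 1 0 := by rw [Matrix.SpecialLinearGroup.SL2_inv_expl]; rfl
  have t00 : (ModularGroup.T ^ (N : ℤ)) 0 0 = 1 := by rw [h]; rfl
  have t01 : (ModularGroup.T ^ (N : ℤ)) 0 1 = (N : ℤ) := by rw [h]; rfl
  have t10 : (ModularGroup.T ^ (N : ℤ)) 1 0 = 0 := by rw [h]; rfl
  have t11 : (ModularGroup.T ^ (N : ℤ)) 1 1 = 1 := by rw [h]; rfl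
  have h1 : (g * ModularGroup.T ^ (N : ℤ) * g⁻¹) 1 0 = - ((N : ℤ) * (g 1 0) ^ 2) := by
    rw [Matrix.SpecialLinearGroup.coe_mul, Matrix.mul_apply, Fin.sum_univ_two,
      Matrix.SpecialLinearGroup.coe_mul, Matrix.mul_apply, Fin.sum_univ_two,
      Matrix.mul_apply, Fin.sum_univ_two, i00, i10, t00, t01, t10, t11]
    ring
  rw [h1]
  push_cast
  simp

theorem csp_f_per (hinv : ∀ g ∈ CongruenceSubgroup.Gamma0 N, ∀ z ∈ UH,
    h (mob g z) = jj g z ^ 2 * h z) (g : SL(2, ℤ)) : Function.Periodic (csp_f h g) (N : ℝ) := by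
  intro z
  have h1 := csp_f_T (h := h) g (N : ℤ) z
  have h2 := csp_f_left hinv _ (csp_conj N g) g z
  rw [inv_mul_cancel_right] at h2
  rw [h2] at h1
  rw [h1]
  push_cast
  rfl

theorem csp_open : IsOpen UH := isOpen_lt continuous_const Complex.continuous_im

theorem csp_f_diff (hd : DifferentiableOn ℂ h UH) (g : SL(2, ℤ)) :
    DifferentiableOn ℂ (csp_f h g) UH := by
  have h1 : DifferentiableOn ℂ (fun z => h (mob g z) / jj g z ^ 2) UH := by
    intro z hz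
    have h2 : DifferentiableAt ℂ h (mob g z) :=
      (hd _ (csp_mem g hz)).differentiableAt (csp_open.mem_nhds (csp_mem g hz))
    have h3 : DifferentiableAt ℂ (mob g) z := (csp_deriv g hz).differentiableAt
    have h4 : DifferentiableAt ℂ (fun w => jj g w) z := by
      unfold jj; fun_prop
    exact ((DifferentiableAt.comp z h2 h3).div (h4.pow 2)
      (pow_ne_zero 2 (csp_jj_ne g hz))).differentiableWithinAt
  exact h1.congr fun z hz => by rw [csp_f_pos _ hz]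

theorem csp_f_norm (g : SL(2, ℤ)) {z : ℂ} (hz : z ∈ UH) :
    (mob g z).im * ‖h (mob g z)‖ = z.im * ‖csp_f h g z‖ := by
  rw [csp_im_mob g hz, csp_f_pos _ hz, norm_div, norm_pow]
  ring

/-- the half strip -/
def csp_R (a b : ℝ) (y : ℝ) : Set ℂ := {z | a ≤ z.re ∧ z.re ≤ b ∧ y ≤ z.im}

theorem csp_R_closed (a b y : ℝ) : IsClosed (csp_R a b y) :=
  (isClosed_le continuous_const Complex.continuous_re).inter
    ((isClosed_le Complex.continuous_re continuous_const).inter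
      (isClosed_le continuous_const Complex.continuous_im))

theorem csp_R_sub (a b y : ℝ) (hy : 0 < y) : csp_R a b y ⊆ UH := fun z hz =>
  lt_of_lt_of_le hy hz.2.2

theorem csp_detmul (c : ℂ) :
    |((ContinuousLinearMap.smulRight (1 : ℂ →L[ℂ] ℂ) c).restrictScalars ℝ).det| = ‖c‖ ^ 2 := by
  have h : ((ContinuousLinearMap.smulRight (1 : ℂ →L[ℂ] ℂ) c).restrictScalars ℝ).det =
      ‖c‖ ^ 2 := by
    rw [← Complex.normSq_eq_norm_sq, Complex.normSq_apply]
    rw [ContinuousLinearMap.det, ← LinearMap.det_toMatrix Complex.basisOneI, Matrix.det_fin_two]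
    simp [LinearMap.toMatrix_apply]
  rw [h, abs_of_nonneg (by positivity)]

theorem csp_inj (g : SL(2, ℤ)) : Set.InjOn (mob g) UH := by
  intro z hz w hw hzw
  rw [← csp_inv_mob g hz, hzw, csp_inv_mob g hw]

theorem csp_int (hcov : ST_COV) (hover : ST_OVER) (hN : 1 ≤ N) {W : ℂ → ℝ} (hW : WOK N W)
    (hd : DifferentiableOn ℂ h UH)
    (hinv : ∀ g ∈ CongruenceSubgroup.Gamma0 N, ∀ z ∈ UH, h (mob g z) = jj g z ^ 2 * h z)
    (hint : IntegrableOn (fun z => W z * ‖h z‖ ^ 2) UH) (g : SL(2, ℤ)) :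
    IntegrableOn (fun z => ‖csp_f h g z‖ ^ 2) (csp_R 0 1 2) := by
  have hsub : csp_R 0 1 2 ⊆ UH := csp_R_sub 0 1 2 (by norm_num)
  have hmeas : MeasurableSet (csp_R 0 1 2) := (csp_R_closed 0 1 2).measurableSet
  have hcont : ContinuousOn (mob g) (csp_R 0 1 2) := fun z hz =>
    (csp_deriv g (hsub hz)).continuousAt.continuousWithinAt
  have hinj : Set.InjOn (mob g) (csp_R 0 1 2) := (csp_inj g).mono hsub
  have hK : MeasurableSet (mob g '' csp_R 0 1 2) :=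
    hmeas.image_of_continuousOn_injOn hcont hinj
  have hKs : mob g '' csp_R 0 1 2 ⊆ UH := by
    rintro _ ⟨z, hz, rfl⟩
    exact csp_mem g (hsub hz)
  have h1 := (hcov N W hN hW (mob g '' csp_R 0 1 2) 6 hK hKs (hover.2 g)
    (fun z => ‖h z‖ ^ 2) (hd.continuousOn.norm.pow 2) (fun _ _ => by positivity)
    (fun γ hγ z hz => by
      show ‖h (mob γ z)‖ ^ 2 = ‖jj γ z‖ ^ 4 * ‖h z‖ ^ 2
      rw [hinv γ hγ z hz, norm_mul, norm_pow]; ring) hint).1
  rw [integrableOn_image_iff_integrableOn_abs_det_fderiv_smul volume hmeas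
    (f' := fun z => (ContinuousLinearMap.smulRight (1 : ℂ →L[ℂ] ℂ)
      ((jj g z ^ 2)⁻¹)).restrictScalars ℝ)
    (fun z hz => ((csp_deriv g (hsub hz)).hasFDerivAt.restrictScalars ℝ).hasFDerivWithinAt)
    hinj] at h1
  refine h1.congr_fun (fun z hz => ?_) hmeas
  simp only [csp_detmul, smul_eq_mul]
  rw [csp_f_pos g (hsub hz), norm_div, norm_inv, norm_pow]
  ring

theorem csp_int_shift (hI : ∀ g : SL(2, ℤ),
    IntegrableOn (fun z => ‖csp_f h g z‖ ^ 2) (csp_R 0 1 2)) (g : SL(2, ℤ)) (k : ℤ) :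
    IntegrableOn (fun z => ‖csp_f h g z‖ ^ 2) (csp_R k (k + 1) 2) := by
  have h1 := hI (g * ModularGroup.T ^ k)
  have hmp : MeasurePreserving (fun z : ℂ => z + (k : ℂ)) volume volume :=
    measurePreserving_add_right volume (k : ℂ)
  have hemb : MeasurableEmbedding (fun z : ℂ => z + (k : ℂ)) :=
    measurableEmbedding_addRight (k : ℂ)
  rw [← hmp.integrableOn_comp_preimage hemb]
  have h2 : (fun z : ℂ => z + (k : ℂ)) ⁻¹' csp_R k (k + 1) 2 = csp_R 0 1 2 := by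
    ext z
    simp only [csp_R, Set.mem_preimage, Set.mem_ofPred_eq, add_re, add_im, intCast_re, intCast_im,
      add_zero]
    constructor
    · rintro ⟨h1, h2, h3⟩
      exact ⟨by linarith, by linarith, h3⟩
    · rintro ⟨h1, h2, h3⟩
      exact ⟨by linarith, by linarith, h3⟩
  rw [h2]
  refine h1.congr_fun (fun z _ => ?_) (csp_R_closed 0 1 2).measurableSet
  simp only [Function.comp_apply, csp_f_T]

theorem csp_int_strip (hI : ∀ g : SL(2, ℤ),
    IntegrableOn (fun z => ‖csp_f h g z‖ ^ 2) (csp_R 0 1 2)) (g : SL(2, ℤ)) (N : ℕ) :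
    IntegrableOn (fun z => ‖csp_f h g z‖ ^ 2) (csp_R (-1) (N + 1) 2) := by
  have h1 : IntegrableOn (fun z => ‖csp_f h g z‖ ^ 2)
      (⋃ k ∈ Finset.Icc (-1 : ℤ) (N + 1), csp_R (k : ℝ) (k + 1) 2) := by
    rw [integrableOn_finset_iUnion]
    intro k _
    exact csp_int_shift hI g k
  refine h1.mono_set fun z hz => ?_
  rw [Set.mem_iUnion₂]
  refine ⟨⌊z.re⌋, ?_, ?_, ?_, hz.2.2⟩
  · rw [Finset.mem_Icc]
    constructor
    · rw [Int.le_floor]; push_cast; exact hz.1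
    · have : (⌊z.re⌋ : ℝ) ≤ ((N + 1 : ℤ) : ℝ) := (Int.floor_le _).trans (by
        push_cast; exact hz.2.1)
      exact_mod_cast this
  · exact Int.floor_le _
  · exact (Int.lt_floor_add_one _).le

/-- pointwise bound -/
theorem csp_point (hd : DifferentiableOn ℂ h UH) (g : SL(2, ℤ)) (N : ℕ)
    (hI : IntegrableOn (fun z => ‖csp_f h g z‖ ^ 2) (csp_R (-1) (N + 1) 2)) (Y : ℝ) (hY : 2 ≤ Y)
    (z : ℂ) (hz0 : 0 ≤ z.re) (hz1 : z.re ≤ N) (hz2 : Y + 1 ≤ z.im) :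
    Real.pi * ‖csp_f h g z‖ ^ 2 ≤ ∫ w in csp_R (-1) (N + 1) Y, ‖csp_f h g w‖ ^ 2 := by
  have hball : Metric.ball z 1 ⊆ csp_R (-1) (N + 1) Y := by
    intro w hw
    rw [Metric.mem_ball, dist_eq_norm] at hw
    have h1 := (Complex.abs_re_le_norm (w - z)).trans_lt hw
    have h2 := (Complex.abs_im_le_norm (w - z)).trans_lt hw
    rw [Complex.sub_re, abs_lt] at h1
    rw [Complex.sub_im, abs_lt] at h2
    exact ⟨by linarith, by linarith, by linarith⟩
  have hsub : csp_R (-1) (N + 1) Y ⊆ UH := csp_R_sub _ _ _ (by linarith)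
  have hdiff : DifferentiableOn ℂ (fun w => csp_f h g w ^ 2) (Metric.ball z 1) :=
    ((csp_f_diff hd g).mono (hball.trans hsub)).pow 2
  have h1 := Pool.Agent.Helper53.Dil.area_mean hdiff (one_pos)
  have hmono : csp_R (-1) (N + 1) Y ⊆ csp_R (-1) (N + 1) 2 := fun w hw =>
    ⟨hw.1, hw.2.1, hY.trans hw.2.2⟩
  have hI' : IntegrableOn (fun z => ‖csp_f h g z‖ ^ 2) (csp_R (-1) (N + 1) Y) := hI.mono_set hmono
  have h2 : ∫⁻ w in Metric.ball z 1, ‖csp_f h g w ^ 2‖ₑ ≤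
      ENNReal.ofReal (∫ w in csp_R (-1) (N + 1) Y, ‖csp_f h g w‖ ^ 2) := by
    rw [ofReal_integral_eq_lintegral_ofReal hI' (Eventually.of_forall fun w => by positivity)]
    refine (lintegral_mono_set hball).trans (lintegral_mono fun w => ?_)
    rw [← ofReal_norm, norm_pow]
  have h3 := h1.trans h2
  rw [one_pow, mul_one, ← ofReal_norm, norm_pow, ← ENNReal.ofReal_mul Real.pi_pos.le,
    ENNReal.ofReal_le_ofReal_iff (integral_nonneg fun w => by positivity)] at h3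
  exact h3

/-- decay at the cusp -/
theorem csp_zero (hd : DifferentiableOn ℂ h UH) (g : SL(2, ℤ)) (hN : 1 ≤ N)
    (hper : Function.Periodic (csp_f h g) (N : ℝ))
    (hI : IntegrableOn (fun z => ‖csp_f h g z‖ ^ 2) (csp_R (-1) (N + 1) 2)) :
    ZeroAtFilter (comap Complex.im atTop) (csp_f h g) := by
  have hN0 : (0 : ℝ) < N := by exact_mod_cast hN
  have hlim : Tendsto (fun n : ℕ => ∫ w in csp_R (-1) (N + 1) (n + 2), ‖csp_f h g w‖ ^ 2) atTop
      (𝓝 (∫ w in ⋂ n : ℕ, csp_R (-1) (N + 1) (n + 2), ‖csp_f h g w‖ ^ 2)) := by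
    refine tendsto_setIntegral_of_antitone (fun n => (csp_R_closed _ _ _).measurableSet) ?_ ?_
    · intro n m hnm z hz
      refine ⟨hz.1, hz.2.1, le_trans ?_ hz.2.2⟩
      have : (n : ℝ) ≤ m := by exact_mod_cast hnm
      linarith
    · refine ⟨0, ?_⟩
      simpa using hI
  have hempty : (⋂ n : ℕ, csp_R (-1) (N + 1) ((n : ℝ) + 2)) = ∅ := by
    rw [Set.eq_empty_iff_forall_notMem]
    intro z hz
    obtain ⟨n, hn⟩ := exists_nat_gt z.im
    have := (Set.mem_iInter.1 hz n).2.2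
    linarith
  rw [hempty, setIntegral_empty] at hlim
  unfold ZeroAtFilter
  rw [Metric.tendsto_nhds]
  intro ε hε
  have h1 : ∀ᶠ n : ℕ in atTop, ∫ w in csp_R (-1) (N + 1) (n + 2), ‖csp_f h g w‖ ^ 2 <
      Real.pi * ε ^ 2 := hlim.eventually (gt_mem_nhds (by positivity))
  obtain ⟨n, hn⟩ := h1.exists
  rw [eventually_comap]
  filter_upwards [eventually_ge_atTop ((n : ℝ) + 3)] with y hy z hz
  rw [dist_zero_right]
  -- reduce the real part
  set k : ℤ := ⌊z.re / N⌋ with hk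
  set z' : ℂ := z - k • ((N : ℝ) : ℂ) with hz'
  have hf : csp_f h g z' = csp_f h g z := hper.sub_zsmul_eq k
  have hre : z'.re = z.re - k * N := by
    rw [hz']; simp
  have him : z'.im = z.im := by
    rw [hz']; simp
  have hk1 : (k : ℝ) ≤ z.re / N := Int.floor_le _
  have hk2 : z.re / N < k + 1 := Int.lt_floor_add_one _
  rw [le_div_iff₀ hN0] at hk1
  rw [div_lt_iff₀ hN0] at hk2
  have h2 := csp_point hd g N hI ((n : ℝ) + 2) (by
    have : (0 : ℝ) ≤ n := Nat.cast_nonneg n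
    linarith) z' (by rw [hre]; linarith) (by rw [hre]; linarith) (by rw [him, hz]; linarith)
  rw [hf] at h2
  have h3 : Real.pi * ‖csp_f h g z‖ ^ 2 < Real.pi * ε ^ 2 := h2.trans_lt hn
  have h4 : ‖csp_f h g z‖ ^ 2 < ε ^ 2 := lt_of_mul_lt_mul_left h3 Real.pi_pos.le
  exact lt_of_pow_lt_pow_left₀ 2 hε.le h4

theorem csp_bdd (hd : DifferentiableOn ℂ h UH) (g : SL(2, ℤ)) (hN : 1 ≤ N)
    (hper : Function.Periodic (csp_f h g) (N : ℝ))
    (hI : IntegrableOn (fun z => ‖csp_f h g z‖ ^ 2) (csp_R (-1) (N + 1) 2)) :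
    ∃ B : ℝ, 0 ≤ B ∧ ∀ w ∈ UH, |w.re| ≤ 1 / 2 → 1 ≤ ‖w‖ → w.im * ‖csp_f h g w‖ ≤ B := by
  have hN0 : (0 : ℝ) < N := by exact_mod_cast hN
  have hz := csp_zero hd g hN hper hI
  have hhol : ∀ᶠ z in comap Complex.im atTop, DifferentiableAt ℂ (csp_f h g) z := by
    rw [eventually_comap]
    filter_upwards [eventually_gt_atTop (0 : ℝ)] with y hy z hz
    have hzU : z ∈ UH := by
      show 0 < z.im
      rw [hz]; exact hy
    exact (csp_f_diff hd g _ hzU).differentiableAt (csp_open.mem_nhds hzU)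
  have hO := Function.Periodic.exp_decay_of_zero_at_inf hN0 hper hhol hz
  obtain ⟨C, hC⟩ := hO.bound
  rw [eventually_comap, eventually_atTop] at hC
  obtain ⟨Y, hY⟩ := hC
  set K : Set ℂ := (csp_R (-(1 / 2)) (1 / 2) (1 / 2)) ∩ {z | z.im ≤ Y} with hK
  have hKc : IsCompact K := by
    refine Metric.isCompact_of_isClosed_isBounded
      ((csp_R_closed _ _ _).inter (isClosed_le Complex.continuous_im continuous_const)) ?_
    rw [isBounded_iff_forall_norm_le]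
    refine ⟨1 / 2 + max Y 1, fun z hz => ?_⟩
    refine (Complex.norm_le_abs_re_add_abs_im z).trans (add_le_add ?_ ?_)
    · rw [abs_le]; exact ⟨by linarith [hz.1.1], by linarith [hz.1.2.1]⟩
    · have h1 := hz.1.2.2
      have h2 : z.im ≤ Y := hz.2
      rw [abs_of_nonneg (by linarith)]
      exact h2.trans (le_max_left _ _)
  obtain ⟨C2, hC2⟩ := hKc.exists_bound_of_continuousOn (f := csp_f h g)
    ((csp_f_diff hd g).continuousOn.mono fun z hz => csp_R_sub _ _ _ (by norm_num) hz.1)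
  refine ⟨|C| * N + |Y| * |C2|, by positivity, ?_⟩
  intro w hw hre hnorm
  have him : 1 / 2 ≤ w.im := by
    have hw0 : 0 < w.im := hw
    have h1 : ‖w‖ ^ 2 = w.re ^ 2 + w.im ^ 2 := by
      rw [← Complex.normSq_eq_norm_sq, Complex.normSq_apply]; ring
    have h2 : w.re ^ 2 ≤ (1 / 2) ^ 2 := by
      rw [← sq_abs w.re]
      gcongr
    have h3 : 1 ≤ ‖w‖ ^ 2 := by nlinarith
    by_contra hcon
    push Not at hcon
    nlinarith
  rcases le_total w.im Y with h1 | h1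
  · have hwK : w ∈ K := by
      refine ⟨⟨by linarith [(abs_le.1 hre).1], by linarith [(abs_le.1 hre).2], him⟩, h1⟩
    have h2 := hC2 w hwK
    have h3 : w.im * ‖csp_f h g w‖ ≤ |Y| * |C2| := by
      have : w.im ≤ |Y| := h1.trans (le_abs_self _)
      have h4 : ‖csp_f h g w‖ ≤ |C2| := h2.trans (le_abs_self _)
      gcongr
    have : 0 ≤ |C| * N := by positivity
    linarith
  · have h2 := hY w.im h1 w rfl
    have h3 : w.im * Real.exp (-2 * Real.pi * w.im / N) ≤ N := by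
      have h4 : w.im / N ≤ Real.exp (2 * Real.pi * w.im / N) := by
        have h5 := Real.add_one_le_exp (2 * Real.pi * w.im / N)
        have h6 : w.im / N ≤ 2 * Real.pi * w.im / N := by
          gcongr
          have := Real.pi_gt_three
          nlinarith
        linarith
      have h5 : -2 * Real.pi * w.im / N = -(2 * Real.pi * w.im / N) := by ring
      rw [h5, Real.exp_neg]
      have h6 : 0 < Real.exp (2 * Real.pi * w.im / N) := Real.exp_pos _
      rw [← div_eq_mul_inv, div_le_iff₀ h6]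
      rw [div_le_iff₀ hN0] at h4
      linarith
    have h4 : ‖csp_f h g w‖ ≤ |C| * Real.exp (-2 * Real.pi * w.im / N) := by
      refine h2.trans ?_
      rw [Real.norm_eq_abs, Real.abs_exp]
      gcongr
      exact le_abs_self _
    have h5 : w.im * ‖csp_f h g w‖ ≤ |C| * N := by
      calc w.im * ‖csp_f h g w‖ ≤ w.im * (|C| * Real.exp (-2 * Real.pi * w.im / N)) := by
            gcongr
        _ = |C| * (w.im * Real.exp (-2 * Real.pi * w.im / N)) := by ring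
        _ ≤ |C| * N := by gcongr
    have : 0 ≤ |Y| * |C2| := by positivity
    linarith

end

theorem st_CSP (hcov : ST_COV) (hover : ST_OVER) : ST_CSP := by
  intro N W h hN hW hd hinv hint
  have hI := csp_int hcov hover hN hW hd hinv hint
  have hB : ∀ g : SL(2, ℤ), ∃ B : ℝ, 0 ≤ B ∧ ∀ w ∈ UH, |w.re| ≤ 1 / 2 → 1 ≤ ‖w‖ →
      w.im * ‖csp_f h g w‖ ≤ B := fun g =>
    csp_bdd hd g hN (csp_f_per hinv g) (csp_int_strip hI g N)
  choose B hB0 hB1 using hB
  obtain ⟨G, hG⟩ := hW.supp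
  refine ⟨∑ g ∈ G, B g, fun z hz => ?_⟩
  have hex : ∃ γ : CongruenceSubgroup.Gamma0 N, W (mob γ.1 z) ≠ 0 := by
    by_contra hcon
    push Not at hcon
    have h1 := hW.sum z hz
    have h2 : HasSum (fun g : CongruenceSubgroup.Gamma0 N => W (mob g.1 z)) 0 := by
      simp only [hcon]
      exact hasSum_zero
    exact one_ne_zero (h1.unique h2)
  obtain ⟨γ, hγ⟩ := hex
  obtain ⟨g, hg, w, hw, hre, hnorm, hzw⟩ := hG _ hγ
  have h1 := csp_f_norm (h := h) γ.1 hz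
  have h2 : csp_f h γ.1 z = h z := by
    rw [csp_f_pos _ hz, hinv γ.1 γ.2 z hz]
    have := csp_jj_ne γ.1 hz
    field_simp
  rw [h2] at h1
  rw [← h1, hzw, csp_f_norm g hw]
  refine (hB1 g w hw hre hnorm).trans ?_
  exact Finset.single_le_sum (f := B) (fun i _ => hB0 i) hg

end Pool.Agent.Helper96.MP
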