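import Pool.Agent.Helper96.MP.Defs

set_option autoImplicit false

namespace Pool.Agent.Helper96.MP

theorem st_HS : ST_HS := by
  intro P _ Q L E hE
  classical
  set φ : (P → ℝ) ≃ₗ[ℝ] EuclideanSpace ℝ P := (WithLp.linearEquiv 2 ℝ (P → ℝ)).symm with hφ
  set E' : Submodule ℝ (EuclideanSpace ℝ P) := E.map φ.toLinearMap with hE'
  have hfr : Module.finrank ℝ E' = Module.finrank ℝ E := LinearEquiv.finrank_map_eq φ E
  set b := stdOrthonormalBasis ℝ E' with hb
  have hmem : ∀ i, ∀ x, ∑ y, Q x y * (b i : EuclideanSpace ℝ P) y =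
      L * (b i : EuclideanSpace ℝ P) x := by
    intro i
    obtain ⟨v, hv, hvi⟩ := (b i).2
    have : ∀ y, (b i : EuclideanSpace ℝ P) y = v y := by
      intro y
      rw [← hvi]
      rfl
    intro x
    simp only [this]
    exact hE v hv x
  have horth : Orthonormal ℝ (fun i => (b i : EuclideanSpace ℝ P)) := by
    have := b.orthonormal
    exact this.comp_linearIsometry E'.subtypeₗᵢ
  have hrow : ∀ x, ∑ i, (L * (b i : EuclideanSpace ℝ P) x) ^ 2 ≤ ∑ y, Q x y ^ 2 := by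
    intro x
    have h1 := horth.sum_inner_products_le (s := Finset.univ) (WithLp.toLp 2 (Q x))
    have h2 : ‖WithLp.toLp 2 (Q x)‖ ^ 2 = ∑ y, Q x y ^ 2 := by
      rw [EuclideanSpace.norm_sq_eq]
      refine Finset.sum_congr rfl fun y _ => ?_
      rw [Real.norm_eq_abs, sq_abs]
    rw [h2] at h1
    refine le_trans (le_of_eq ?_) h1
    refine Finset.sum_congr rfl fun i _ => ?_
    rw [← hmem i x, PiLp.inner_apply, Real.norm_eq_abs, sq_abs]
    congr 1
  have hnorm : ∀ i, ∑ x, ((b i : EuclideanSpace ℝ P) x) ^ 2 = 1 := by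
    intro i
    have h1 := horth.1 i
    have h2 : ‖(b i : EuclideanSpace ℝ P)‖ ^ 2 = 1 := by rw [h1, one_pow]
    rw [EuclideanSpace.norm_sq_eq] at h2
    rw [← h2]
    refine Finset.sum_congr rfl fun y _ => ?_
    rw [Real.norm_eq_abs, sq_abs]
  calc L ^ 2 * (Module.finrank ℝ E : ℝ) =
      ∑ i, ∑ x, (L * (b i : EuclideanSpace ℝ P) x) ^ 2 := by
        simp only [mul_pow, ← Finset.mul_sum, hnorm]
        rw [Finset.sum_const, Finset.card_univ, Fintype.card_fin, nsmul_eq_mul, mul_one, hfr]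
    _ = ∑ x, ∑ i, (L * (b i : EuclideanSpace ℝ P) x) ^ 2 := Finset.sum_comm
    _ ≤ ∑ x, ∑ y, Q x y ^ 2 := Finset.sum_le_sum fun x _ => hrow x

end Pool.Agent.Helper96.MP
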