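import Pool.Agent.Helper9.MP.Lib

/-!
# MP_bde085_nt: module STRIP (width of a cusp, overlap of the horizontal strip of that width)
-/

set_option autoImplicit false

namespace Pool.Agent.Helper96.MP

open Complex MeasureTheory Filter Topology
open scoped MatrixGroups

theorem strip_inv10 (h : SL(2, ℤ)) : (h⁻¹ : SL(2, ℤ)) 0 0 = h 1 1 ∧ (h⁻¹ : SL(2, ℤ)) 0 1 = - h 0 1 ∧
    (h⁻¹ : SL(2, ℤ)) 1 0 = - h 1 0 ∧ (h⁻¹ : SL(2, ℤ)) 1 1 = h 0 0 := by
  refine ⟨?_, ?_, ?_, ?_⟩ <;> simp [Matrix.SpecialLinearGroup.coe_inv, Matrix.adjugate_fin_two]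

theorem strip_ent (h : SL(2, ℤ)) (k : ℤ) :
    (h * ModularGroup.T ^ k * h⁻¹ : SL(2, ℤ)) 1 0 = - (k * (h 1 0) ^ 2) := by
  have h00 : (ModularGroup.T ^ k : SL(2, ℤ)) 0 0 = 1 := by
    rw [Lib.T_pow_coe]; rfl
  have h01 : (ModularGroup.T ^ k : SL(2, ℤ)) 0 1 = k := by
    rw [Lib.T_pow_coe]; rfl
  have h10 : (ModularGroup.T ^ k : SL(2, ℤ)) 1 0 = 0 := by
    rw [Lib.T_pow_coe]; rfl
  have h11 : (ModularGroup.T ^ k : SL(2, ℤ)) 1 1 = 1 := by
    rw [Lib.T_pow_coe]; rfl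
  obtain ⟨i00, i01, i10, i11⟩ := strip_inv10 h
  rw [Lib.mul10, Lib.mul10, Lib.mul11, h00, h01, h10, h11, i00, i10]
  ring

theorem strip_mem (N : ℕ) (h : SL(2, ℤ)) (k : ℤ) :
    h * ModularGroup.T ^ k * h⁻¹ ∈ CongruenceSubgroup.Gamma0 N ↔ (N : ℤ) ∣ k * (h 1 0) ^ 2 := by
  constructor
  · intro hk
    have := (Lib.g0_of_mem hk).2
    rw [strip_ent] at this
    exact (dvd_neg).mp this
  · intro hk
    apply Lib.mem_of_dvd
    rw [strip_ent]
    exact (dvd_neg).mpr hk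

/-- two matrices with the same bottom row differ by a translation -/
theorem strip_T (a b : SL(2, ℤ)) (h0 : a 1 0 = b 1 0) (h1 : a 1 1 = b 1 1) :
    ∃ k : ℤ, b = ModularGroup.T ^ k * a := by
  have ha := Lib.det1 a
  have hb := Lib.det1 b
  refine ⟨b 0 1 * a 0 0 - b 0 0 * a 0 1, ?_⟩
  set k : ℤ := b 0 1 * a 0 0 - b 0 0 * a 0 1 with hk
  have h00 : (ModularGroup.T ^ k : SL(2, ℤ)) 0 0 = 1 := by
    rw [Lib.T_pow_coe]; rfl
  have h01 : (ModularGroup.T ^ k : SL(2, ℤ)) 0 1 = k := by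
    rw [Lib.T_pow_coe]; rfl
  have h10 : (ModularGroup.T ^ k : SL(2, ℤ)) 1 0 = 0 := by
    rw [Lib.T_pow_coe]; rfl
  have h11 : (ModularGroup.T ^ k : SL(2, ℤ)) 1 1 = 1 := by
    rw [Lib.T_pow_coe]; rfl
  rw [← h0, ← h1] at hb
  ext i j
  fin_cases i <;> fin_cases j
  · show b 0 0 = (ModularGroup.T ^ k * a) 0 0
    rw [Lib.mul00, h00, h01, hk]
    linear_combination (-(b 0 0)) * ha + (a 0 0) * hb
  · show b 0 1 = (ModularGroup.T ^ k * a) 0 1
    rw [Lib.mul01, h00, h01, hk]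
    linear_combination (-(b 0 1)) * ha + (a 0 1) * hb
  · show b 1 0 = (ModularGroup.T ^ k * a) 1 0
    rw [Lib.mul10, h10, h11, h0]
    ring
  · show b 1 1 = (ModularGroup.T ^ k * a) 1 1
    rw [Lib.mul11, h10, h11, h1]
    ring

/-- possible bottom rows -/
theorem strip_rows (δ : SL(2, ℤ)) (u v : ℂ) (hu : 1 / 2 < u.im) (hv : 1 / 2 < v.im)
    (huv : mob δ u = v) :
    (δ 1 0, δ 1 1) ∈ ({(0, 1), (0, -1), (1, -⌊u.re⌋ - 1), (1, -⌊u.re⌋), (-1, ⌊u.re⌋),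
      (-1, ⌊u.re⌋ + 1)} : Finset (ℤ × ℤ)) := by
  have hu' : u ∈ UH := by show 0 < u.im; linarith
  have hj := Lib.jj_ne δ hu'
  have hpos : 0 < ‖jj δ u‖ ^ 2 := by positivity
  have him := Lib.mob_im δ hu'
  rw [huv] at him
  rw [him, lt_div_iff₀ hpos] at hv
  have hn : ‖jj δ u‖ ^ 2 = (((δ 1 0 : ℤ) : ℝ) * u.re + ((δ 1 1 : ℤ) : ℝ)) ^ 2 +
      (((δ 1 0 : ℤ) : ℝ) * u.im) ^ 2 := by
    rw [← Complex.normSq_eq_norm_sq, Complex.normSq_apply]
    simp [jj]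
    ring
  rw [hn] at hv
  have hdet := Lib.det1 δ
  generalize δ 1 0 = r at *
  generalize δ 1 1 = s at *
  have hr : |r| ≤ 1 := by
    by_contra hcon
    have h2 : 2 ≤ |r| := by omega
    have h3 : (4 : ℤ) ≤ r ^ 2 := by
      rw [← sq_abs]; nlinarith
    have h4 : (4 : ℝ) ≤ (r : ℝ) ^ 2 := by exact_mod_cast h3
    nlinarith [sq_nonneg ((r : ℝ) * u.re + s), mul_pow (r : ℝ) u.im 2]
  have hr3 : r = -1 ∨ r = 0 ∨ r = 1 := by
    have := abs_le.mp hr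
    omega
  have hf1 := Int.floor_le u.re
  have hf2 := Int.lt_floor_add_one u.re
  set n : ℤ := ⌊u.re⌋ with hn'
  rcases hr3 with rfl | rfl | rfl
  · have h5 : (s - u.re) ^ 2 < 1 := by
      push_cast at hv
      nlinarith [sq_nonneg (u.im - 1)]
    have h6 := abs_lt.mp ((sq_lt_one_iff_abs_lt_one _).mp h5)
    have h7 : (n : ℝ) - 1 < s := by linarith [h6.1]
    have h8 : (s : ℝ) < n + 2 := by linarith [h6.2]
    have h7' : n - 1 < s := by exact_mod_cast h7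
    have h8' : s < n + 2 := by exact_mod_cast h8
    have : s = n ∨ s = n + 1 := by omega
    rcases this with rfl | rfl <;> simp
  · have h5 : s * δ 0 0 = 1 := by
      rw [mul_comm]; linarith [hdet]
    rcases Int.eq_one_or_neg_one_of_mul_eq_one h5 with rfl | rfl <;> simp
  · have h5 : (u.re + s) ^ 2 < 1 := by
      push_cast at hv
      nlinarith [sq_nonneg (u.im - 1)]
    have h6 := abs_lt.mp ((sq_lt_one_iff_abs_lt_one _).mp h5)
    have h7 : (-n : ℝ) - 2 < s := by linarith [h6.1]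
    have h8 : (s : ℝ) < -n + 1 := by linarith [h6.2]
    have h7' : -n - 2 < s := by exact_mod_cast h7
    have h8' : s < -n + 1 := by exact_mod_cast h8
    have : s = -n - 1 ∨ s = -n := by omega
    rcases this with rfl | rfl <;> simp

theorem st_STRIP : ST_STRIP := by
  intro N hN h
  classical
  have hex : ∃ w : ℕ, 1 ≤ w ∧ (N : ℤ) ∣ (w : ℤ) * (h 1 0) ^ 2 := ⟨N, hN, Dvd.intro _ rfl⟩
  obtain ⟨hw1, hw2⟩ := Nat.find_spec hex
  set w := Nat.find hex with hw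
  have hmin : ∀ k : ℤ, (N : ℤ) ∣ k * (h 1 0) ^ 2 → |k| < w → k = 0 := by
    intro k hk hkw
    by_contra hk0
    have h1 : 1 ≤ k.natAbs := Int.natAbs_pos.mpr hk0
    have h2 : (N : ℤ) ∣ (k.natAbs : ℤ) * (h 1 0) ^ 2 := by
      rcases Int.natAbs_eq k with h3 | h3
      · rw [← h3]; exact hk
      · have : (k.natAbs : ℤ) = -k := by omega
        rw [this, neg_mul]
        exact (dvd_neg).mpr hk
    have h4 : w ≤ k.natAbs := Nat.find_min' hex ⟨h1, h2⟩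
    have h5 : (k.natAbs : ℤ) = |k| := Int.natCast_natAbs k
    have : (w : ℤ) ≤ |k| := by rw [← h5]; exact_mod_cast h4
    omega
  refine ⟨w, hw1, ?_, ?_⟩
  · have := (strip_mem N h w).mpr hw2
    rw [zpow_natCast] at this
    exact this
  intro z hz
  set S : Set SL(2, ℤ) := {g : SL(2, ℤ) | g ∈ CongruenceSubgroup.Gamma0 N ∧
      mob g z ∈ mob h '' {u : ℂ | 0 ≤ u.re ∧ u.re < w ∧ 1 / 2 < u.im}} with hS
  by_cases hne : S = ∅
  · rw [hne]; simp
  obtain ⟨g1, hg1⟩ := Set.nonempty_iff_ne_empty.mpr hne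
  obtain ⟨hg1m, u1, hu1, hgu1⟩ := hg1
  obtain ⟨hu1a, hu1b, hu1c⟩ := hu1
  have hu1U : u1 ∈ UH := by show 0 < u1.im; linarith
  set D : SL(2, ℤ) → SL(2, ℤ) := fun g => h⁻¹ * (g * g1⁻¹) * h with hD
  have hkey : ∀ g ∈ S, ∃ u : ℂ, 0 ≤ u.re ∧ u.re < w ∧ 1 / 2 < u.im ∧ mob (D g) u1 = u := by
    rintro g ⟨hgm, u, ⟨hua, hub, huc⟩, hgu⟩
    have huU : u ∈ UH := by show 0 < u.im; linarith
    refine ⟨u, hua, hub, huc, ?_⟩
    rw [hD]
    show mob (h⁻¹ * (g * g1⁻¹) * h) u1 = u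
    rw [Lib.mob_mul _ _ hu1U, hgu1, Lib.mob_mul _ _ (Lib.mob_mem g1 hz),
      Lib.mob_mul _ _ (Lib.mob_mem g1 hz), Lib.mob_inv_mob g1 hz, ← hgu, Lib.mob_inv_mob h huU]
  set F : SL(2, ℤ) → ℤ × ℤ := fun g => (D g 1 0, D g 1 1) with hF
  set Fs : Finset (ℤ × ℤ) := {(0, 1), (0, -1), (1, -⌊u1.re⌋ - 1), (1, -⌊u1.re⌋), (-1, ⌊u1.re⌋),
      (-1, ⌊u1.re⌋ + 1)} with hFs
  have hmaps : ∀ g ∈ S, F g ∈ (Fs : Set (ℤ × ℤ)) := by
    intro g hg
    obtain ⟨u, hua, hub, huc, hu⟩ := hkey g hg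
    exact strip_rows (D g) u1 u hu1c huc hu
  have hinj : Set.InjOn F S := by
    intro g hg g' hg' hFF
    obtain ⟨u, hua, hub, huc, hu⟩ := hkey g hg
    obtain ⟨u', hua', hub', huc', hu'⟩ := hkey g' hg'
    have h0 : D g 1 0 = D g' 1 0 := congrArg Prod.fst hFF
    have h1 : D g 1 1 = D g' 1 1 := congrArg Prod.snd hFF
    obtain ⟨k, hk⟩ := strip_T (D g) (D g') h0 h1
    have huk : u' = u + k := by
      rw [← hu', hk, Lib.mob_mul _ _ hu1U, hu, Lib.mob_T_zpow]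
    have hre : u'.re = u.re + k := by rw [huk]; simp
    have hkw : |k| < w := by
      have h2 : (k : ℝ) < w := by linarith
      have h3 : -(w : ℝ) < k := by linarith
      rw [abs_lt]
      constructor
      · exact_mod_cast h3
      · exact_mod_cast h2
    have hconj : h * ModularGroup.T ^ k * h⁻¹ = g' * g⁻¹ := by
      have h2 : ModularGroup.T ^ k = D g' * (D g)⁻¹ := by rw [hk]; group
      rw [h2, hD]
      group
    have hmem : h * ModularGroup.T ^ k * h⁻¹ ∈ CongruenceSubgroup.Gamma0 N := by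
      rw [hconj]
      exact mul_mem hg'.1 (inv_mem hg.1)
    have hk0 := hmin k ((strip_mem N h k).mp hmem) hkw
    rw [hk0] at hconj
    have : g' * g⁻¹ = 1 := by rw [← hconj]; group
    exact (mul_inv_eq_one.mp this).symm
  refine ⟨Set.Finite.of_injOn (f := F) hmaps hinj (Finset.finite_toSet Fs), ?_⟩
  have h1 := Set.ncard_le_ncard_of_injOn F hmaps hinj (Finset.finite_toSet Fs)
  rw [Set.ncard_coe_finset] at h1
  exact h1.trans Finset.card_le_six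

end Pool.Agent.Helper96.MP
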