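import Pool.Agent.Helper9.MP.Lat
import Pool.Agent.Helper79.MP.FOLD
import Pool.Agent.Helper18.MP.STRIP

/-!
# MP_bde085_nt, module PET: basic properties of the Petersson product
-/

set_option autoImplicit false

namespace Pool.Agent.Helper96.MP

open Complex MeasureTheory Filter Topology
open scoped MatrixGroups ENNReal

theorem pet_image_meas (g : SL(2, ℤ)) : MeasurableSet (mob g '' SB) := by
  rw [cov_image g Lib.SB_sub_UH]
  exact fold_UH.inter (cov_mob_meas _ fold_SB)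

theorem pet_image_sub (g : SL(2, ℤ)) : mob g '' SB ⊆ UH := by
  rintro _ ⟨w, hw, rfl⟩
  exact Lib.mob_mem g (Lib.SB_sub_UH hw)

/-- the hyperbolic area of a translate of the box is finite -/
theorem pet_area (hNR : ST_NRM) (g : SL(2, ℤ)) :
    IntegrableOn (fun z : ℂ => (z.im ^ 2)⁻¹) (mob g '' SB) := by
  have hbox := (hNR.2.2 (4 / 5) le_rfl).1
  have hse : SB ∩ {z : ℂ | 4 / 5 ≤ z.im} = SB := by
    ext z; exact ⟨fun h => h.1, fun h => ⟨h, h.2⟩⟩
  rw [hse] at hbox
  have hmeas : Measurable (fun z : ℂ => (z.im ^ 2)⁻¹) := by fun_prop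
  refine ⟨hmeas.aestronglyMeasurable, ?_⟩
  rw [hasFiniteIntegral_iff_ofReal (Eventually.of_forall fun z => by positivity),
    cov_change g fold_SB Lib.SB_sub_UH]
  have h1 : ∫⁻ z in SB, ENNReal.ofReal ((‖jj g z‖ ^ 4)⁻¹) * ENNReal.ofReal (((mob g z).im ^ 2)⁻¹) =
      ∫⁻ z in SB, ENNReal.ofReal ((z.im ^ 2)⁻¹) := by
    refine setLIntegral_congr_fun fold_SB fun z hz => ?_
    have hzU := Lib.SB_sub_UH hz
    have hj : ‖jj g z‖ ≠ 0 := norm_ne_zero_iff.mpr (Lib.jj_ne g hzU)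
    have hy : z.im ≠ 0 := ne_of_gt hzU
    show ENNReal.ofReal ((‖jj g z‖ ^ 4)⁻¹) * ENNReal.ofReal (((mob g z).im ^ 2)⁻¹) =
      ENNReal.ofReal ((z.im ^ 2)⁻¹)
    rw [← ENNReal.ofReal_mul (by positivity), Lib.mob_im g hzU]
    congr 1
    field_simp
  rw [h1]
  have h2 := hbox.2
  rwa [hasFiniteIntegral_iff_ofReal (Eventually.of_forall fun z => by positivity)] at h2

/-- integrability of the product of two functions of bounded growth -/
theorem pet_int (hNR : ST_NRM) {N : ℕ} {W : ℂ → ℝ} (hW : WOK N W) (f g : ℂ → ℂ)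
    (hf : ContinuousOn f UH) (hg : ContinuousOn g UH)
    (hfb : ∃ B : ℝ, ∀ z ∈ UH, z.im * ‖f z‖ ≤ B) (hgb : ∃ B : ℝ, ∀ z ∈ UH, z.im * ‖g z‖ ≤ B) :
    IntegrableOn (fun z => (W z : ℂ) * (f z * (starRingEnd ℂ) (g z))) UH := by
  obtain ⟨B, hB⟩ := hfb
  obtain ⟨B', hB'⟩ := hgb
  obtain ⟨G, hG⟩ := hW.supp
  have hmeas : AEStronglyMeasurable (fun z => (W z : ℂ) * (f z * (starRingEnd ℂ) (g z)))
      (volume.restrict UH) := by
    have h1 : ContinuousOn (fun z => f z * (starRingEnd ℂ) (g z)) UH :=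
      hf.mul (Complex.continuous_conj.comp_continuousOn hg)
    exact (Complex.measurable_ofReal.comp hW.meas).aestronglyMeasurable.mul
      (h1.aestronglyMeasurable fold_UH)
  have hS : ∀ z ∈ UH, W z ≠ 0 → z ∈ ⋃ g ∈ G, mob g '' SB := by
    intro z _ hz
    obtain ⟨g, hg, w, hw, hw1, hw2, rfl⟩ := hG z hz
    refine Set.mem_biUnion hg ⟨w, ⟨hw1, ?_⟩, rfl⟩
    have h3 : 0 < w.im := hw
    have h4 : 1 ≤ w.re ^ 2 + w.im ^ 2 := by
      have h5 : ‖w‖ ^ 2 = w.re ^ 2 + w.im ^ 2 := by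
        rw [← Complex.normSq_eq_norm_sq, Complex.normSq_apply]; ring
      nlinarith [norm_nonneg w]
    have h6 := abs_le.mp hw1
    nlinarith
  have harea : IntegrableOn (fun z : ℂ => (z.im ^ 2)⁻¹) (⋃ g ∈ G, mob g '' SB) := by
    rw [integrableOn_finset_iUnion]
    exact fun g _ => pet_area hNR g
  have hSm : MeasurableSet (⋃ g ∈ G, mob g '' SB) :=
    Finset.measurableSet_biUnion _ fun g _ => pet_image_meas g
  have hdom : IntegrableOn (fun z : ℂ => (B * B') * (⋃ g ∈ G, mob g '' SB).indicator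
      (fun z : ℂ => (z.im ^ 2)⁻¹) z) UH := by
    refine Integrable.integrableOn ?_
    exact ((integrable_indicator_iff hSm).2 harea).const_mul _
  refine Integrable.mono' hdom hmeas ?_
  refine (ae_restrict_iff' fold_UH).2 (Eventually.of_forall fun z hz => ?_)
  have hy : 0 < z.im := hz
  by_cases h0 : W z = 0
  · rw [h0]
    have : 0 ≤ (⋃ g ∈ G, mob g '' SB).indicator (fun z : ℂ => (z.im ^ 2)⁻¹) z :=
      Set.indicator_nonneg (fun z _ => by positivity) z
    have hBB : 0 ≤ B * B' := by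
      have h1 := (mul_nonneg hy.le (norm_nonneg (f z))).trans (hB z hz)
      have h2 := (mul_nonneg hy.le (norm_nonneg (g z))).trans (hB' z hz)
      exact mul_nonneg h1 h2
    simpa using mul_nonneg hBB this
  · rw [Set.indicator_of_mem (hS z hz h0), norm_mul, norm_mul, Complex.norm_conj,
      Complex.norm_real, Real.norm_of_nonneg (hW.nonneg z)]
    have h1 := hB z hz
    have h2 := hB' z hz
    have h3 : z.im * ‖f z‖ * (z.im * ‖g z‖) ≤ B * B' :=
      mul_le_mul h1 h2 (by positivity) ((mul_nonneg hy.le (norm_nonneg (f z))).trans h1)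
    have h4 : ‖f z‖ * ‖g z‖ ≤ B * B' * (z.im ^ 2)⁻¹ := by
      rw [← div_eq_mul_inv, le_div_iff₀ (by positivity)]
      calc ‖f z‖ * ‖g z‖ * z.im ^ 2 = z.im * ‖f z‖ * (z.im * ‖g z‖) := by ring
        _ ≤ _ := h3
    calc W z * (‖f z‖ * ‖g z‖) ≤ 1 * (‖f z‖ * ‖g z‖) :=
          mul_le_mul_of_nonneg_right (hW.le_one z) (by positivity)
      _ ≤ _ := by rw [one_mul]; exact h4

/-- the box has bounded overlap -/
theorem pet_count (z : ℂ) (hz : z ∈ UH) :
    {g : SL(2, ℤ) | z ∈ mob g '' SB}.encard ≤ 12 := by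
  obtain ⟨w, hw, _, hc⟩ := st_STRIP 1 le_rfl 1
  set S : Set ℂ := {u : ℂ | 0 ≤ u.re ∧ u.re < w ∧ 1 / 2 < u.im} with hS
  have himg : mob 1 '' S = S := by
    ext u
    constructor
    · rintro ⟨v, hv, rfl⟩
      rwa [Lib.mob_one]
    · intro hu
      exact ⟨u, hu, Lib.mob_one u⟩
  rw [himg] at hc
  obtain ⟨hf, hn⟩ := hc z hz
  set A : Set SL(2, ℤ) := {g | g ∈ CongruenceSubgroup.Gamma0 1 ∧ mob g z ∈ S} with hA
  have hAe : A.encard ≤ 6 := by
    rw [← hf.cast_ncard_eq]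
    exact_mod_cast hn
  have h1 : ∀ g : SL(2, ℤ), g ∈ CongruenceSubgroup.Gamma0 1 := fun g =>
    Lib.mem_of_dvd (by simp)
  have hw1 : (1 : ℝ) ≤ w := by exact_mod_cast hw
  have hsub : {g : SL(2, ℤ) | z ∈ mob g '' SB} ⊆
      ((fun g : SL(2, ℤ) => g⁻¹) '' A) ∪ ((fun g : SL(2, ℤ) => g⁻¹ * ModularGroup.T) '' A) := by
    rintro g ⟨u, hu, hg⟩
    have hu' : mob g⁻¹ z = u := by
      rw [← hg, Lib.mob_inv_mob g (Lib.SB_sub_UH hu)]
    have h2 := abs_le.mp hu.1
    by_cases h3 : 0 ≤ u.re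
    · left
      refine ⟨g⁻¹, ⟨h1 _, ?_⟩, inv_inv g⟩
      rw [hu']
      refine ⟨h3, by linarith [h2.2], by linarith [hu.2]⟩
    · right
      refine ⟨ModularGroup.T * g⁻¹, ⟨h1 _, ?_⟩, ?_⟩
      · rw [Lib.mob_mul _ _ hz, hu']
        have h4 : mob ModularGroup.T u = u + 1 := by
          have := Lib.mob_T_zpow 1 u
          simpa using this
        rw [h4]
        push Not at h3
        refine ⟨?_, ?_, ?_⟩
        · simp only [Complex.add_re, Complex.one_re]; linarith [h2.1]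
        · simp only [Complex.add_re, Complex.one_re]; linarith
        · simp only [Complex.add_im, Complex.one_im, add_zero]; linarith [hu.2]
      · show (ModularGroup.T * g⁻¹)⁻¹ * ModularGroup.T = g
        group
  refine (Set.encard_le_encard hsub).trans ((Set.encard_union_le _ _).trans ?_)
  have h5 : ((fun g : SL(2, ℤ) => g⁻¹) '' A).encard ≤ 6 := (Set.encard_image_le _ _).trans hAe
  have h6 : ((fun g : SL(2, ℤ) => g⁻¹ * ModularGroup.T) '' A).encard ≤ 6 :=
    (Set.encard_image_le _ _).trans hAe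
  calc _ ≤ (6 : ℕ∞) + 6 := add_le_add h5 h6
    _ = 12 := by norm_num

theorem pet_qs_cont (hQ : ST_QDIF) {N : ℕ} (hN : 1 ≤ N) {b : ℕ → ℂ} (hb : Cusp N b) :
    ContinuousOn (qs b) UH := (hQ N b hN hb).2.1.continuousOn

/-- comparison of the two norms -/
theorem pet_nrm (hQ : ST_QDIF) (hC : ST_COS) (hPN : ST_PNF) (hNR : ST_NRM) {N : ℕ} (hN : 1 ≤ N)
    {W : ℂ → ℝ} (hW : WOK N W) {b : ℕ → ℂ} (hb : Cusp N b)
    (hint : IntegrableOn (fun z => W z * ‖qs b z‖ ^ 2) UH) :
    nrm N b ≤ 12 * ∫ z in UH, W z * ‖qs b z‖ ^ 2 := by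
  classical
  have : Countable SL(2, ℤ) := cov_countable
  have hPfin : Finite (PN N) := (hPN N hN).1
  have _ := Fintype.ofFinite (PN N)
  have hPc : Countable (PN N) := Finite.to_countable
  have hqc : ContinuousOn (fun z => ‖qs b z‖ ^ 2) UH := (pet_qs_cont hQ hN hb).norm.pow 2
  obtain ⟨F, hFdef⟩ : ∃ F : ℂ → ℝ≥0∞,
      F = fun z => ENNReal.ofReal (UH.indicator (fun z => ‖qs b z‖ ^ 2) z) := ⟨_, rfl⟩
  have hFm : Measurable F := by
    rw [hFdef]
    have h1 := ContinuousOn.measurable_piecewise (f := fun z => ‖qs b z‖ ^ 2) (g := (0 : ℂ → ℝ))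
      (s := UH) hqc continuousOn_const fold_UH
    rw [Set.piecewise_eq_indicator] at h1
    exact h1.ennreal_ofReal
  have hF : ∀ z ∈ UH, F z = ENNReal.ofReal (‖qs b z‖ ^ 2) := by
    intro z hz
    rw [hFdef]
    show ENNReal.ofReal (UH.indicator (fun z => ‖qs b z‖ ^ 2) z) = _
    rw [Set.indicator_of_mem hz]
  obtain ⟨f, hfdef⟩ : ∃ f : ℂ → ℝ≥0∞, f = fun z => ENNReal.ofReal (W z) * F z := ⟨_, rfl⟩
  have hfm : Measurable f := by
    rw [hfdef]
    exact hW.meas.ennreal_ofReal.mul hFm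
  have hnrm0 : ∀ x : PN N, 0 ≤ ∫ z in SB, gsq b (rep N x) z := fun x =>
    (hNR.1 N b hN hb (rep N x)).2.2.1
  have hnrm : ∑ x : PN N, ∫⁻ w in SB, ENNReal.ofReal (gsq b (rep N x) w) =
      ENNReal.ofReal (nrm N b) := by
    unfold nrm
    rw [finsum_eq_sum_of_fintype, ENNReal.ofReal_sum_of_nonneg fun x _ => hnrm0 x]
    refine Finset.sum_congr rfl fun x _ => ?_
    rw [ofReal_integral_eq_lintegral_ofReal (hNR.1 N b hN hb (rep N x)).2.1
      (Eventually.of_forall fun z => Lib.gsq_nonneg b _ z)]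
  have hsum : ∀ z ∈ UH, ∑' g : CongruenceSubgroup.Gamma0 N, ENNReal.ofReal (W (mob g.1 z)) = 1 := by
    intro z hz
    rw [← ENNReal.ofReal_tsum_of_nonneg (fun g => hW.nonneg _) (hW.sum z hz).summable,
      (hW.sum z hz).tsum_eq, ENNReal.ofReal_one]
  -- the integrals over the translates of the box
  have hchg : ∀ g : SL(2, ℤ), ∫⁻ z in mob g '' SB, f z =
      ∫⁻ w in SB, ENNReal.ofReal (W (mob g w)) * ENNReal.ofReal (gsq b g w) := by
    intro g
    rw [cov_change g fold_SB Lib.SB_sub_UH]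
    refine setLIntegral_congr_fun fold_SB fun w hw => ?_
    have hwU := Lib.SB_sub_UH hw
    show ENNReal.ofReal ((‖jj g w‖ ^ 4)⁻¹) * f (mob g w) =
      ENNReal.ofReal (W (mob g w)) * ENNReal.ofReal (gsq b g w)
    rw [hfdef]
    show ENNReal.ofReal ((‖jj g w‖ ^ 4)⁻¹) * (ENNReal.ofReal (W (mob g w)) * F (mob g w)) = _
    rw [hF _ (Lib.mob_mem g hwU), ← ENNReal.ofReal_mul (hW.nonneg _),
      ← ENNReal.ofReal_mul (by positivity), ← ENNReal.ofReal_mul (hW.nonneg _)]
    congr 1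
    unfold gsq
    rw [div_eq_inv_mul]
    ring
  have hgmeas : ∀ g : SL(2, ℤ), AEMeasurable (fun w => ENNReal.ofReal (gsq b g w))
      (volume.restrict SB) := by
    intro g
    exact (((hNR.1 N b hN hb g).1.mono Lib.SB_sub_UH).aemeasurable fold_SB).ennreal_ofReal
  have s1 : ∀ x : PN N, ∫⁻ w in SB, ENNReal.ofReal (gsq b (rep N x) w) =
      ∑' γ : CongruenceSubgroup.Gamma0 N, ∫⁻ z in mob (γ.1 * rep N x) '' SB, f z := by
    intro x
    have h1 : ∫⁻ w in SB, ENNReal.ofReal (gsq b (rep N x) w) =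
        ∫⁻ w in SB, ∑' γ : CongruenceSubgroup.Gamma0 N,
          ENNReal.ofReal (W (mob (γ.1 * rep N x) w)) *
            ENNReal.ofReal (gsq b (γ.1 * rep N x) w) := by
      refine setLIntegral_congr_fun fold_SB fun w hw => ?_
      have hwU := Lib.SB_sub_UH hw
      have h2 : ∀ γ : CongruenceSubgroup.Gamma0 N, ENNReal.ofReal (W (mob (γ.1 * rep N x) w)) *
            ENNReal.ofReal (gsq b (γ.1 * rep N x) w) =
          ENNReal.ofReal (W (mob γ.1 (mob (rep N x) w))) *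
            ENNReal.ofReal (gsq b (rep N x) w) := by
        intro γ
        rw [Lib.mob_mul _ _ hwU, Lib.gsq_inv hb γ.2 _ hwU]
      show ENNReal.ofReal (gsq b (rep N x) w) = ∑' γ : CongruenceSubgroup.Gamma0 N, _
      rw [tsum_congr h2, ENNReal.tsum_mul_right, hsum _ (Lib.mob_mem _ hwU), one_mul]
    have hm' : ∀ γ : CongruenceSubgroup.Gamma0 N, AEMeasurable (fun w =>
        ENNReal.ofReal (W (mob (γ.1 * rep N x) w)) * ENNReal.ofReal (gsq b (γ.1 * rep N x) w))
        (volume.restrict SB) := fun γ => AEMeasurable.mul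
      (Measurable.ennreal_ofReal (hW.meas.comp (cov_mob_meas _))).aemeasurable (hgmeas _)
    rw [h1, lintegral_tsum hm']
    exact tsum_congr fun γ => (hchg _).symm
  have s2 : ∑ x : PN N, ∫⁻ w in SB, ENNReal.ofReal (gsq b (rep N x) w) =
      ∑' g : SL(2, ℤ), ∫⁻ z in mob g '' SB, f z := by
    rw [← (foldE hC hN).tsum_eq, ENNReal.tsum_prod', tsum_fintype]
    exact Finset.sum_congr rfl fun x _ => s1 x
  have s3 : ∑' g : SL(2, ℤ), ∫⁻ z in mob g '' SB, f z ≤ 12 * ∫⁻ z in UH, f z := by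
    have h1 : ∀ g : SL(2, ℤ), ∫⁻ z in mob g '' SB, f z =
        ∫⁻ z in UH, (mob g '' SB).indicator f z := by
      intro g
      rw [lintegral_indicator (pet_image_meas g), Measure.restrict_restrict (pet_image_meas g),
        Set.inter_eq_left.2 (pet_image_sub g)]
    simp only [h1]
    rw [← lintegral_tsum (fun g => (hfm.indicator (pet_image_meas g)).aemeasurable),
      ← lintegral_const_mul' _ _ (by norm_num)]
    refine setLIntegral_mono (hfm.const_mul _) fun z hz => ?_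
    have h2 : ∀ g : SL(2, ℤ), (mob g '' SB).indicator f z =
        {g : SL(2, ℤ) | z ∈ mob g '' SB}.indicator (fun _ => (1 : ℝ≥0∞)) g * f z := by
      intro g
      by_cases h : z ∈ mob g '' SB
      · rw [Set.indicator_of_mem h, Set.indicator_of_mem (show g ∈
          {g : SL(2, ℤ) | z ∈ mob g '' SB} from h), one_mul]
      · rw [Set.indicator_of_notMem h, Set.indicator_of_notMem (show g ∉
          {g : SL(2, ℤ) | z ∈ mob g '' SB} from h), zero_mul]
    simp only [h2]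
    rw [ENNReal.tsum_mul_right, ← tsum_subtype, ENNReal.tsum_set_one]
    refine mul_le_mul_left ?_ _
    have h3 := pet_count z hz
    have h4 := ENat.toENNReal_le.2 h3
    exact_mod_cast h4
  have s4 : ∫⁻ z in UH, f z = ENNReal.ofReal (∫ z in UH, W z * ‖qs b z‖ ^ 2) := by
    rw [ofReal_integral_eq_lintegral_ofReal hint
      (Eventually.of_forall fun z => mul_nonneg (hW.nonneg z) (by positivity))]
    refine setLIntegral_congr_fun fold_UH fun z hz => ?_
    rw [hfdef]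
    show ENNReal.ofReal (W z) * F z = _
    rw [hF z hz, ← ENNReal.ofReal_mul (hW.nonneg _)]
  have hI0 : 0 ≤ ∫ z in UH, W z * ‖qs b z‖ ^ 2 :=
    integral_nonneg fun z => mul_nonneg (hW.nonneg z) (by positivity)
  have h7 : ENNReal.ofReal (nrm N b) ≤
      ENNReal.ofReal (12 * ∫ z in UH, W z * ‖qs b z‖ ^ 2) := by
    rw [← hnrm, s2, ENNReal.ofReal_mul (by norm_num), ← s4]
    have h8 : ENNReal.ofReal 12 = 12 := by norm_num
    rw [h8]
    exact s3
  exact (ENNReal.ofReal_le_ofReal_iff (by positivity)).1 h7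

/-- **Module PET.** -/
theorem st_PET (hQ : ST_QDIF) (hC : ST_COS) (hPN : ST_PNF) (hNR : ST_NRM) (hUB : ST_UB)
    (hQU : ST_QUNI) : ST_PET := by
  obtain ⟨Cu, hCpos, hCu⟩ := hUB
  refine ⟨12, by norm_num, ?_⟩
  intro N W hN hW b b' b'' hb hb' hb''
  have hcb : ∀ {c : ℕ → ℂ}, Cusp N c → ∃ B : ℝ, ∀ z ∈ UH, z.im * ‖qs c z‖ ≤ B := fun hc => hc.bdd
  have hI : ∀ {c d : ℕ → ℂ}, Cusp N c → Cusp N d →
      IntegrableOn (fun z => (W z : ℂ) * (qs c z * (starRingEnd ℂ) (qs d z))) UH := fun hc hd =>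
    pet_int hNR hW _ _ (pet_qs_cont hQ hN hc) (pet_qs_cont hQ hN hd) (hcb hc) (hcb hd)
  have hreal : ∀ z : ℂ, (W z : ℂ) * (qs b z * (starRingEnd ℂ) (qs b z)) =
      ((W z * ‖qs b z‖ ^ 2 : ℝ) : ℂ) := by
    intro z
    rw [Complex.mul_conj, Complex.normSq_eq_norm_sq]
    push_cast
    ring
  have hbb : pet W b b = ((∫ z in UH, W z * ‖qs b z‖ ^ 2 : ℝ) : ℂ) := by
    unfold pet
    simp only [hreal]
    exact integral_ofReal
  have hint : IntegrableOn (fun z => W z * ‖qs b z‖ ^ 2) UH := by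
    have h1 := (hI hb hb).re
    refine h1.congr (Eventually.of_forall fun z => ?_)
    show RCLike.re ((W z : ℂ) * (qs b z * (starRingEnd ℂ) (qs b z))) = W z * ‖qs b z‖ ^ 2
    rw [hreal]
    exact Complex.ofReal_re _
  have hnn : 0 ≤ ∫ z in UH, W z * ‖qs b z‖ ^ 2 :=
    integral_nonneg fun z => mul_nonneg (hW.nonneg z) (by positivity)
  have hnrm := pet_nrm hQ hC hPN hNR hN hW hb hint
  refine ⟨hI hb hb', ?_, ?_, ?_, ?_, ?_, ?_, ?_⟩
  · unfold pet
    rw [← integral_add (hI hb hb'') (hI hb' hb'')]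
    refine setIntegral_congr_fun fold_UH fun z hz => ?_
    have h1 : qs (fun n => b n + b' n) z = qs b z + qs b' z := by
      unfold qs
      rw [← (hb.sum z hz).tsum_add (hb'.sum z hz)]
      exact tsum_congr fun k => add_mul _ _ _
    show (W z : ℂ) * (qs (fun n => b n + b' n) z * (starRingEnd ℂ) (qs b'' z)) = _
    rw [h1]
    ring
  · intro c
    unfold pet
    rw [← integral_const_mul]
    refine setIntegral_congr_fun fold_UH fun z hz => ?_
    have h1 : qs (fun n => c * b n) z = c * qs b z := by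
      unfold qs
      rw [← tsum_mul_left]
      exact tsum_congr fun k => mul_assoc _ _ _
    show (W z : ℂ) * (qs (fun n => c * b n) z * (starRingEnd ℂ) (qs b' z)) = _
    rw [h1]
    ring
  · unfold pet
    rw [← integral_conj]
    refine setIntegral_congr_fun fold_UH fun z _ => ?_
    show (W z : ℂ) * (qs b' z * (starRingEnd ℂ) (qs b z)) =
      (starRingEnd ℂ) ((W z : ℂ) * (qs b z * (starRingEnd ℂ) (qs b' z)))
    rw [map_mul, map_mul, Complex.conj_ofReal, Complex.conj_conj]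
    ring
  · rw [hbb, Complex.ofReal_im]
  · rw [hbb, Complex.ofReal_re]
    exact hnn
  · intro h0
    rw [hbb, Complex.ofReal_re] at h0
    have hn0 : nrm N b ≤ 0 := by rw [h0] at hnrm; linarith
    have hz0 : ∀ z ∈ UH, qs b z = 0 := by
      intro z hz
      obtain ⟨g, hg⟩ := Lib.exists_mob_SB hz
      have h1 := hCu N b hN hb g⁻¹ (mob g z) hg.2
      have hgU := Lib.SB_sub_UH hg
      rw [Lib.gsq_im b g⁻¹ hgU, Lib.mob_inv_mob g hz] at h1
      have h2 : z.im ^ 2 * ‖qs b z‖ ^ 2 ≤ 0 := h1.trans (mul_nonpos_of_nonneg_of_nonpos hCpos.le hn0)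
      have hy : 0 < z.im := hz
      have h3 : ‖qs b z‖ ^ 2 ≤ 0 := by
        by_contra h
        push Not at h
        have : 0 < z.im ^ 2 * ‖qs b z‖ ^ 2 := by positivity
        linarith
      have h4 : ‖qs b z‖ = 0 := by
        have := norm_nonneg (qs b z)
        nlinarith
      exact norm_eq_zero.mp h4
    have h5 := hQU b (fun _ => 0) (fun τ hτ => hb.sum τ hτ) (fun τ _ => by simp)
      (fun τ hτ => by rw [hz0 τ hτ]; simp [qs])
    intro n
    rw [h5]
  · rw [hbb, Complex.ofReal_re]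
    exact hnrm

end Pool.Agent.Helper96.MP
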