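import Pool.Agent.Helper9.MP.Lat
import Pool.Agent.Helper45.MP.UNFB

/-!
# MP_bde085_nt, module PWQ: Atkin-Lehner operators are unitary
-/

set_option autoImplicit false

namespace Pool.Agent.Helper96.MP

open Complex MeasureTheory Filter Topology
open scoped MatrixGroups

theorem pwq_den {A B C D n : ℤ} (hn : 0 < n) (hdet : A * D - B * C = n) {z : ℂ} (hz : z ∈ UH) :
    (C : ℂ) * z + (D : ℂ) ≠ 0 := by
  intro h
  have him : ((C : ℂ) * z + (D : ℂ)).im = 0 := by rw [h]; simp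
  have hre : ((C : ℂ) * z + (D : ℂ)).re = 0 := by rw [h]; simp
  have h1 : (C : ℝ) * z.im = 0 := by simpa using him
  have hc : (C : ℝ) = 0 := by
    rcases mul_eq_zero.mp h1 with h2 | h2
    · exact h2
    · exact absurd h2 (ne_of_gt hz)
  have hd : (D : ℝ) = 0 := by
    have : (C : ℝ) * z.re + (D : ℝ) = 0 := by simpa using hre
    rw [hc] at this; linarith
  have hc' : C = 0 := by exact_mod_cast hc
  have hd' : D = 0 := by exact_mod_cast hd
  rw [hc', hd'] at hdet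
  simp at hdet
  omega

theorem pwq_mem {A B C D n : ℤ} (hn : 0 < n) (hdet : A * D - B * C = n) {z : ℂ} (hz : z ∈ UH) :
    mo A B C D z ∈ UH := by
  have h1 := pwq_den hn hdet hz
  show 0 < (mo A B C D z).im
  rw [Lib.mo_im _ _ _ _ _ h1, hdet]
  have h2 : (0 : ℝ) < n := by exact_mod_cast hn
  have h3 : 0 < z.im := hz
  have h4 : 0 < ‖(C : ℂ) * z + (D : ℂ)‖ := norm_pos_iff.mpr h1
  positivity

theorem pwq_inv {A B C D n : ℤ} (hn : 0 < n) (hdet : A * D - B * C = n) {z : ℂ} (hz : z ∈ UH) :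
    mo D (-B) (-C) A (mo A B C D z) = z := by
  have h1 := pwq_den hn hdet hz
  have hdet' : D * A - (-B) * (-C) = n := by linarith
  have h2 := pwq_den hn hdet' (pwq_mem hn hdet hz)
  have hw : mo A B C D z * ((C : ℂ) * z + (D : ℂ)) = (A : ℂ) * z + (B : ℂ) := by
    unfold mo
    exact div_mul_cancel₀ _ h1
  generalize mo A B C D z = w at h2 hw ⊢
  unfold mo
  rw [div_eq_iff h2]
  push_cast
  linear_combination hw

theorem pwq_deriv {A B C D n : ℤ} (hn : 0 < n) (hdet : A * D - B * C = n) {z : ℂ} (hz : z ∈ UH) :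
    HasDerivAt (mo A B C D) ((n : ℂ) / ((C : ℂ) * z + (D : ℂ)) ^ 2) z := by
  have hne := pwq_den hn hdet hz
  have h1 : HasDerivAt (fun z : ℂ => (A : ℂ) * z + (B : ℂ)) (A : ℂ) z := by
    simpa using ((hasDerivAt_id z).const_mul (A : ℂ)).add_const (B : ℂ)
  have h2 : HasDerivAt (fun z : ℂ => (C : ℂ) * z + (D : ℂ)) (C : ℂ) z := by
    simpa using ((hasDerivAt_id z).const_mul (C : ℂ)).add_const (D : ℂ)
  have h3 := h1.div h2 hne
  have hC : (A : ℂ) * D - B * C = n := by exact_mod_cast congrArg (fun t : ℤ => (t : ℂ)) hdet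
  have e : (n : ℂ) / ((C : ℂ) * z + (D : ℂ)) ^ 2 = ((A : ℂ) * ((C : ℂ) * z + (D : ℂ)) -
      ((A : ℂ) * z + (B : ℂ)) * (C : ℂ)) / ((C : ℂ) * z + (D : ℂ)) ^ 2 := by
    congr 1
    rw [← hC]; ring
  rw [e]
  exact h3

theorem pwq_injOn {A B C D n : ℤ} (hn : 0 < n) (hdet : A * D - B * C = n) :
    Set.InjOn (mo A B C D) UH := by
  intro z hz w hw h
  rw [← pwq_inv hn hdet hz, h, pwq_inv hn hdet hw]

theorem pwq_image {A B C D n : ℤ} (hn : 0 < n) (hdet : A * D - B * C = n) :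
    mo A B C D '' UH = UH := by
  have hdet' : D * A - (-B) * (-C) = n := by linarith
  ext z
  constructor
  · rintro ⟨w, hw, rfl⟩
    exact pwq_mem hn hdet hw
  · intro hz
    refine ⟨mo D (-B) (-C) A z, pwq_mem hn hdet' hz, ?_⟩
    have := pwq_inv hn hdet' hz
    rwa [neg_neg, neg_neg] at this

theorem pwq_meas (A B C D : ℤ) : Measurable (mo A B C D) := by
  unfold mo
  fun_prop

theorem pwq_jac {C D n : ℤ} (z : ℂ) :
    |(ContinuousLinearMap.restrictScalars ℝ (ContinuousLinearMap.toSpanSingleton ℂ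
      ((n : ℂ) / ((C : ℂ) * z + (D : ℂ)) ^ 2) : ℂ →L[ℂ] ℂ)).det| =
      (n : ℝ) ^ 2 / ‖(C : ℂ) * z + (D : ℂ)‖ ^ 4 := by
  rw [unf_det_smul, abs_of_nonneg (by positivity), norm_div, norm_pow, div_pow, ← pow_mul,
    Complex.norm_intCast, sq_abs]

theorem pwq_int_iff {E : Type*} [NormedAddCommGroup E] [NormedSpace ℝ E] {A B C D n : ℤ}
    (hn : 0 < n) (hdet : A * D - B * C = n) (f : ℂ → E) :
    IntegrableOn f UH ↔ IntegrableOn (fun z => ((n : ℝ) ^ 2 / ‖(C : ℂ) * z + (D : ℂ)‖ ^ 4) •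
      f (mo A B C D z)) UH := by
  conv_lhs => rw [← pwq_image hn hdet]
  rw [integrableOn_image_iff_integrableOn_abs_det_fderiv_smul volume unf_measSet
    (f' := fun z => ContinuousLinearMap.restrictScalars ℝ
      (ContinuousLinearMap.toSpanSingleton ℂ ((n : ℂ) / ((C : ℂ) * z + (D : ℂ)) ^ 2) : ℂ →L[ℂ] ℂ))
    (fun z hz => ((pwq_deriv hn hdet hz).hasFDerivAt.restrictScalars ℝ).hasFDerivWithinAt)
    (pwq_injOn hn hdet)]
  refine integrableOn_congr_fun (fun z _ => ?_) unf_measSet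
  simp only [pwq_jac]

theorem pwq_int {E : Type*} [NormedAddCommGroup E] [NormedSpace ℝ E] {A B C D n : ℤ}
    (hn : 0 < n) (hdet : A * D - B * C = n) (f : ℂ → E) :
    ∫ z in UH, f z = ∫ z in UH, ((n : ℝ) ^ 2 / ‖(C : ℂ) * z + (D : ℂ)‖ ^ 4) •
      f (mo A B C D z) := by
  conv_lhs => rw [← pwq_image hn hdet]
  rw [integral_image_eq_integral_abs_det_fderiv_smul volume unf_measSet
    (f' := fun z => ContinuousLinearMap.restrictScalars ℝ
      (ContinuousLinearMap.toSpanSingleton ℂ ((n : ℂ) / ((C : ℂ) * z + (D : ℂ)) ^ 2) : ℂ →L[ℂ] ℂ))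
    (fun z hz => ((pwq_deriv hn hdet hz).hasFDerivAt.restrictScalars ℝ).hasFDerivWithinAt)
    (pwq_injOn hn hdet)]
  refine setIntegral_congr_fun unf_measSet fun z _ => ?_
  simp only [pwq_jac]

/-- composition of Möbius transformations -/
theorem pwq_comp {a b c d e f g h n n' : ℤ} (hn : 0 < n) (hdet : a * d - b * c = n) (hn' : 0 < n')
    (hdet' : e * h - f * g = n') {z : ℂ} (hz : z ∈ UH) :
    mo a b c d (mo e f g h z) = mo (a * e + b * g) (a * f + b * h) (c * e + d * g)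
      (c * f + d * h) z := by
  have h1 := pwq_den hn' hdet' hz
  have h2 := pwq_den hn hdet (pwq_mem hn' hdet' hz)
  have hdet2 : (a * e + b * g) * (c * f + d * h) - (a * f + b * h) * (c * e + d * g) = n * n' := by
    rw [← hdet, ← hdet']; ring
  have h3 := pwq_den (mul_pos hn hn') hdet2 hz
  have hw : mo e f g h z * ((g : ℂ) * z + (h : ℂ)) = (e : ℂ) * z + (f : ℂ) := by
    unfold mo
    exact div_mul_cancel₀ _ h1
  generalize mo e f g h z = w at h2 hw ⊢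
  unfold mo
  rw [div_eq_div_iff h2 h3]
  push_cast
  linear_combination ((a : ℂ) * (c * w + d) - c * (a * w + b)) * hw

/-- `Γ₀(N)` is normalized by the Atkin-Lehner matrices -/
theorem pwq_conj {N Q : ℕ} {A B C D : ℤ} (hQ0 : 0 < Q) (hQN : Q ∣ N) (hM : TQ N Q 1 A B C D)
    (γ : SL(2, ℤ)) (hγ : γ ∈ CongruenceSubgroup.Gamma0 N) :
    ∃ γ' : SL(2, ℤ), γ' ∈ CongruenceSubgroup.Gamma0 N ∧
      D * γ 0 0 - B * γ 1 0 = γ' 0 0 * D - γ' 0 1 * C ∧
      D * γ 0 1 - B * γ 1 1 = -(γ' 0 0 * B) + γ' 0 1 * A ∧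
      -(C * γ 0 0) + A * γ 1 0 = γ' 1 0 * D - γ' 1 1 * C ∧
      -(C * γ 0 1) + A * γ 1 1 = -(γ' 1 0 * B) + γ' 1 1 * A := by
  obtain ⟨hdet, ⟨A', hA⟩, ⟨D', hD⟩, ⟨C', hC⟩⟩ := hM
  obtain ⟨N', hN'⟩ := hQN
  have hγ1 := Lib.det1 γ
  obtain ⟨_, ⟨r', hr⟩⟩ := Lib.g0_of_mem hγ
  have hQ : (Q : ℤ) ≠ 0 := by exact_mod_cast hQ0.ne'
  have hNZ : (N : ℤ) = Q * N' := by exact_mod_cast hN'
  rw [one_mul] at hdet
  -- entries
  set p := γ 0 0
  set q := γ 0 1
  set r := γ 1 0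
  set s := γ 1 1
  have hdet' : (Q : ℤ) * A' * D' - B * N' * C' = 1 := by
    have h1 : (Q : ℤ) * ((Q : ℤ) * A' * D' - B * N' * C') = Q * 1 := by
      rw [mul_one]
      calc (Q : ℤ) * ((Q : ℤ) * A' * D' - B * N' * C') = (Q * A') * (Q * D') - B * ((Q * N') * C') := by
            ring
        _ = A * D - B * C := by rw [hA, hD, hC, hNZ]
        _ = Q := hdet
    exact mul_left_cancel₀ hQ h1
  -- γ' = adj(M) γ M / Q
  let a1 : ℤ := D' * (p * A + q * C) - B * (r * A' + s * N' * C')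
  let b1 : ℤ := D' * (p * B + q * D) - B * (N' * r' * B + s * D')
  let c1 : ℤ := -(N' * C') * (p * A + q * C) + A' * (r * A + s * C)
  let d1 : ℤ := -(N' * C') * (p * B + q * D) + A' * (r * B + s * D)
  have ha1 : (Q : ℤ) * a1 = D * (p * A + q * C) - B * (r * A + s * C) := by
    simp only [a1]
    rw [hD, hC, hA, hNZ]; ring
  have hb1 : (Q : ℤ) * b1 = D * (p * B + q * D) - B * (r * B + s * D) := by
    simp only [b1]
    rw [hD, hr, hNZ]; ring
  have hc1 : (Q : ℤ) * c1 = -C * (p * A + q * C) + A * (r * A + s * C) := by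
    simp only [c1]
    rw [hC, hA, hNZ]; ring
  have hd1 : (Q : ℤ) * d1 = -C * (p * B + q * D) + A * (r * B + s * D) := by
    simp only [d1]
    rw [hC, hA, hNZ]; ring
  have hdd : a1 * d1 - b1 * c1 = 1 := by
    have h1 : (Q : ℤ) ^ 2 * (a1 * d1 - b1 * c1) = Q ^ 2 * 1 := by
      calc (Q : ℤ) ^ 2 * (a1 * d1 - b1 * c1) = (Q * a1) * (Q * d1) - (Q * b1) * (Q * c1) := by ring
        _ = (A * D - B * C) ^ 2 * (p * s - q * r) := by rw [ha1, hb1, hc1, hd1]; ring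
        _ = _ := by rw [hdet, hγ1]
    exact mul_left_cancel₀ (pow_ne_zero 2 hQ) h1
  refine ⟨⟨!![a1, b1; c1, d1], by rw [Matrix.det_fin_two_of]; exact hdd⟩, ?_, ?_, ?_, ?_, ?_⟩
  · apply Lib.mem_of_dvd
    show (N : ℤ) ∣ c1
    refine ⟨-(C' * p * A') - C' * q * N' * C' + A' * r' * Q * A' + A' * s * C', ?_⟩
    simp only [c1]
    rw [hr, hC, hA, hNZ]; ring
  · show D * p - B * r = a1 * D - b1 * C
    apply mul_left_cancel₀ hQ
    have : (Q : ℤ) * (a1 * D - b1 * C) = (Q * a1) * D - (Q * b1) * C := by ring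
    rw [this, ha1, hb1, ← hdet]; ring
  · show D * q - B * s = -(a1 * B) + b1 * A
    apply mul_left_cancel₀ hQ
    have : (Q : ℤ) * (-(a1 * B) + b1 * A) = -((Q * a1) * B) + (Q * b1) * A := by ring
    rw [this, ha1, hb1, ← hdet]; ring
  · show -(C * p) + A * r = c1 * D - d1 * C
    apply mul_left_cancel₀ hQ
    have : (Q : ℤ) * (c1 * D - d1 * C) = (Q * c1) * D - (Q * d1) * C := by ring
    rw [this, hc1, hd1, ← hdet]; ring
  · show -(C * q) + A * s = -(c1 * B) + d1 * A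
    apply mul_left_cancel₀ hQ
    have : (Q : ℤ) * (-(c1 * B) + d1 * A) = -((Q * c1) * B) + (Q * d1) * A := by ring
    rw [this, hc1, hd1, ← hdet]; ring

/-- the bijection of `Γ₀(N)` given by conjugation -/
theorem pwq_equiv {N Q : ℕ} {A B C D : ℤ} (hQ0 : 0 < Q) (hQN : Q ∣ N) (hM : TQ N Q 1 A B C D) :
    ∃ φ : CongruenceSubgroup.Gamma0 N ≃ CongruenceSubgroup.Gamma0 N, ∀ γ, ∀ w ∈ UH,
      mo D (-B) (-C) A (mob γ.1 w) = mob (φ γ).1 (mo D (-B) (-C) A w) := by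
  have hdet : A * D - B * C = Q := by
    have := hM.1
    rwa [one_mul] at this
  have hQpos : (0 : ℤ) < Q := by exact_mod_cast hQ0
  have hM' : TQ N Q 1 D (-B) (-C) A := by
    obtain ⟨h1, h2, h3, h4⟩ := hM
    exact ⟨by linarith, h3, h2, h4.neg_right⟩
  choose f hf using fun γ : CongruenceSubgroup.Gamma0 N => pwq_conj hQ0 hQN hM γ.1 γ.2
  choose g hg using fun γ : CongruenceSubgroup.Gamma0 N => pwq_conj hQ0 hQN hM' γ.1 γ.2
  have hQ : (Q : ℤ) ≠ 0 := hQpos.ne'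
  refine ⟨⟨fun γ => ⟨f γ, (hf γ).1⟩, fun γ => ⟨g γ, (hg γ).1⟩, ?_, ?_⟩, ?_⟩
  · intro γ
    apply Subtype.ext
    obtain ⟨h0, h1, h2, h3, h4⟩ := hf γ
    obtain ⟨h0', h1', h2', h3', h4'⟩ := hg ⟨f γ, h0⟩
    simp only at h1' h2' h3' h4'
    show g ⟨f γ, h0⟩ = γ.1
    set x := g ⟨f γ, h0⟩
    ext i j
    fin_cases i <;> fin_cases j
    · show x 0 0 = γ.1 0 0
      apply mul_left_cancel₀ hQ
      rw [← hdet]
      linear_combination (-A) * h1 + (-B) * h3 + (-D) * h1' + C * h2'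
    · show x 0 1 = γ.1 0 1
      apply mul_left_cancel₀ hQ
      rw [← hdet]
      linear_combination (-A) * h2 + (-B) * h4 + B * h1' + (-A) * h2'
    · show x 1 0 = γ.1 1 0
      apply mul_left_cancel₀ hQ
      rw [← hdet]
      linear_combination (-C) * h1 + (-D) * h3 + (-D) * h3' + C * h4'
    · show x 1 1 = γ.1 1 1
      apply mul_left_cancel₀ hQ
      rw [← hdet]
      linear_combination (-C) * h2 + (-D) * h4 + B * h3' + (-A) * h4'
  · intro γ
    apply Subtype.ext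
    obtain ⟨h0', h1', h2', h3', h4'⟩ := hg γ
    obtain ⟨h0, h1, h2, h3, h4⟩ := hf ⟨g γ, h0'⟩
    simp only at h1 h2 h3 h4
    show f ⟨g γ, h0'⟩ = γ.1
    set x := f ⟨g γ, h0'⟩
    ext i j
    fin_cases i <;> fin_cases j
    · show x 0 0 = γ.1 0 0
      apply mul_left_cancel₀ hQ
      rw [← hdet]
      linear_combination (-D) * h1' + B * h3' + (-A) * h1 + (-C) * h2
    · show x 0 1 = γ.1 0 1
      apply mul_left_cancel₀ hQ
      rw [← hdet]
      linear_combination (-D) * h2' + B * h4' + (-B) * h1 + (-D) * h2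
    · show x 1 0 = γ.1 1 0
      apply mul_left_cancel₀ hQ
      rw [← hdet]
      linear_combination C * h1' + (-A) * h3' + (-A) * h3 + (-C) * h4
    · show x 1 1 = γ.1 1 1
      apply mul_left_cancel₀ hQ
      rw [← hdet]
      linear_combination C * h2' + (-A) * h4' + (-B) * h3 + (-D) * h4
  · intro γ w hw
    obtain ⟨h0, h1, h2, h3, h4⟩ := hf γ
    have hdet2 : D * A - (-B) * (-C) = Q := by linarith
    show mo D (-B) (-C) A (mob γ.1 w) = mob (f γ) (mo D (-B) (-C) A w)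
    unfold mob
    rw [pwq_comp hQpos hdet2 one_pos (Lib.det1 γ.1) hw,
      pwq_comp one_pos (Lib.det1 (f γ)) hQpos hdet2 hw]
    have e1 : D * γ.1 0 0 + -B * γ.1 1 0 = f γ 0 0 * D + f γ 0 1 * -C := by linarith
    have e2 : D * γ.1 0 1 + -B * γ.1 1 1 = f γ 0 0 * -B + f γ 0 1 * A := by linarith
    have e3 : -C * γ.1 0 0 + A * γ.1 1 0 = f γ 1 0 * D + f γ 1 1 * -C := by linarith
    have e4 : -C * γ.1 0 1 + A * γ.1 1 1 = f γ 1 0 * -B + f γ 1 1 * A := by linarith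
    rw [e1, e2, e3, e4]

/-- inserting a partition of unity -/
theorem pwq_hasSum {N : ℕ} (V : CongruenceSubgroup.Gamma0 N → ℂ → ℝ) (hVm : ∀ γ, Measurable (V γ))
    (hV0 : ∀ γ z, 0 ≤ V γ z) (hs : ∀ z ∈ UH, HasSum (fun γ => V γ z) 1) (Φ : ℂ → ℂ)
    (hΦ : IntegrableOn Φ UH) :
    HasSum (fun γ : CongruenceSubgroup.Gamma0 N => ∫ w in UH, (V γ w : ℂ) * Φ w)
      (∫ w in UH, Φ w) := by
  have := unf_countable
  refine hasSum_integral_of_dominated_convergence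
    (bound := fun (g : CongruenceSubgroup.Gamma0 N) w => V g w * ‖Φ w‖) ?_ ?_ ?_ ?_ ?_
  · intro g
    exact (Complex.measurable_ofReal.comp (hVm g)).aestronglyMeasurable.mul hΦ.1
  · intro g
    refine Eventually.of_forall fun w => ?_
    rw [norm_mul, Complex.norm_real, Real.norm_of_nonneg (hV0 _ _)]
  · filter_upwards [ae_restrict_mem unf_measSet] with w hw
    exact ((hs w hw).mul_right ‖Φ w‖).summable
  · refine (Integrable.congr hΦ.norm ?_)
    filter_upwards [ae_restrict_mem unf_measSet] with w hw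
    have := ((hs w hw).mul_right ‖Φ w‖).tsum_eq
    rw [this, one_mul]
  · filter_upwards [ae_restrict_mem unf_measSet] with w hw
    have h1 : HasSum (fun γ => ((V γ w : ℝ) : ℂ)) ((1 : ℝ) : ℂ) :=
      Complex.hasSum_ofReal.2 (hs w hw)
    have := h1.mul_right (Φ w)
    rwa [Complex.ofReal_one, one_mul] at this

/-- **Module PWQ.** -/
theorem st_PWQ (hT : ST_TQM) (hP : ST_PET) : ST_PWQ := by
  intro N Q W hN hW hQ b b' c c' hb hb' hc hc' hbc hbc'
  obtain ⟨C0, _, hP⟩ := hP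
  obtain ⟨A, B, C, D, hM⟩ := (hT N hN).2.1 Q hQ
  have hQN : Q ∣ N := by
    have := (Finset.mem_filter.mp hQ).1
    exact Nat.dvd_of_mem_divisors this
  have hQ0 : 0 < Q := Nat.pos_of_dvd_of_pos hQN (by omega)
  obtain ⟨φ, hφ⟩ := pwq_equiv hQ0 hQN hM
  have hdet : A * D - B * C = Q := by
    have := hM.1
    rwa [one_mul] at this
  have hdet' : D * A - (-B) * (-C) = Q := by linarith
  have hQpos : (0 : ℤ) < Q := by exact_mod_cast hQ0
  obtain ⟨Φ, hΦ⟩ : ∃ Φ : ℂ → ℂ, Φ = fun z => qs b z * (starRingEnd ℂ) (qs b' z) := ⟨_, rfl⟩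
  have hΦe : ∀ γ ∈ CongruenceSubgroup.Gamma0 N, ∀ z ∈ UH,
      Φ (mob γ z) = (‖jj γ z‖ ^ 4 : ℝ) * Φ z := by
    intro γ hγ z hz
    rw [hΦ]
    show qs b (mob γ z) * (starRingEnd ℂ) (qs b' (mob γ z)) = _
    rw [Lib.qs_mob hb hγ hz, Lib.qs_mob hb' hγ hz, map_mul, map_pow]
    have h1 : ((‖jj γ z‖ ^ 4 : ℝ) : ℂ) = jj γ z ^ 2 * (starRingEnd ℂ) (jj γ z) ^ 2 := by
      rw [← mul_pow, Complex.mul_conj, Complex.normSq_eq_norm_sq]
      push_cast
      ring
    rw [h1]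
    ring
  -- transformation under the Atkin-Lehner matrix
  have hΨ : ∀ z ∈ UH, (((Q : ℤ) : ℝ) ^ 2 / ‖(C : ℂ) * z + (D : ℂ)‖ ^ 4) • Φ (mo A B C D z) =
      qs c z * (starRingEnd ℂ) (qs c' z) := by
    intro z hz
    rw [hbc A B C D hM z hz, hbc' A B C D hM z hz, hΦ]
    show (((Q : ℤ) : ℝ) ^ 2 / ‖(C : ℂ) * z + (D : ℂ)‖ ^ 4) •
      (qs b (mo A B C D z) * (starRingEnd ℂ) (qs b' (mo A B C D z))) = _
    rw [map_mul, map_div₀, map_pow, Complex.conj_natCast]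
    have h0 := pwq_den hQpos hdet hz
    have h0' : (starRingEnd ℂ) ((C : ℂ) * z + (D : ℂ)) ≠ 0 := by
      intro h
      apply h0
      have := congrArg (starRingEnd ℂ) h
      rwa [Complex.conj_conj, map_zero] at this
    have h1 : ((‖(C : ℂ) * z + (D : ℂ)‖ ^ 4 : ℝ) : ℂ) = ((C : ℂ) * z + (D : ℂ)) ^ 2 *
        (starRingEnd ℂ) ((C : ℂ) * z + (D : ℂ)) ^ 2 := by
      rw [← mul_pow, Complex.mul_conj, Complex.normSq_eq_norm_sq]
      push_cast
      ring
    rw [Complex.real_smul, Complex.ofReal_div, h1]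
    push_cast
    field_simp
  set m : ℂ → ℂ := mo D (-B) (-C) A with hm
  have hmm : Measurable m := pwq_meas _ _ _ _
  have hmU : ∀ z ∈ UH, m z ∈ UH := fun z hz => pwq_mem hQpos hdet' hz
  have hi1 : IntegrableOn (fun z => (W z : ℂ) * Φ z) UH := by
    rw [hΦ]
    exact (hP N W hN hW b b' b hb hb' hb).1
  have hkey : ∀ z ∈ UH, (((Q : ℤ) : ℝ) ^ 2 / ‖(C : ℂ) * z + (D : ℂ)‖ ^ 4) •
      ((W (m (mo A B C D z)) : ℂ) * Φ (mo A B C D z)) =
      (W z : ℂ) * (qs c z * (starRingEnd ℂ) (qs c' z)) := by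
    intro z hz
    rw [hm, pwq_inv hQpos hdet hz, ← hΨ z hz, Complex.real_smul, Complex.real_smul]
    ring
  have hi2 : IntegrableOn (fun z => (W (m z) : ℂ) * Φ z) UH := by
    rw [pwq_int_iff hQpos hdet]
    exact (integrableOn_congr_fun hkey unf_measSet).2 (hP N W hN hW c c' c hc hc' hc).1
  have hpc : pet W c c' = ∫ w in UH, (W (m w) : ℂ) * Φ w := by
    rw [pwq_int hQpos hdet]
    unfold pet
    exact (setIntegral_congr_fun unf_measSet hkey).symm
  have hpb : pet W b b' = ∫ w in UH, (W w : ℂ) * Φ w := by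
    rw [hΦ]
    rfl
  rw [hpc, hpb]
  -- two expansions
  have s1 := pwq_hasSum (fun (γ : CongruenceSubgroup.Gamma0 N) z => W (mob γ.1⁻¹ z))
    (fun γ => hW.meas.comp (unf_meas_mob _)) (fun γ z => hW.nonneg _) (fun z hz => by
      have h := hW.sum z hz
      rw [← (Equiv.inv (CongruenceSubgroup.Gamma0 N)).hasSum_iff] at h
      exact h) _ hi2
  have s2 := pwq_hasSum (fun (γ : CongruenceSubgroup.Gamma0 N) z => W (m (mob γ.1 z)))
    (fun γ => hW.meas.comp (hmm.comp (unf_meas_mob _))) (fun γ z => hW.nonneg _) (fun z hz => by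
      have h := hW.sum (m z) (hmU z hz)
      rw [← φ.hasSum_iff] at h
      have e : (fun γ : CongruenceSubgroup.Gamma0 N => W (m (mob γ.1 z))) =
          (fun g : CongruenceSubgroup.Gamma0 N => W (mob g.1 (m z))) ∘ φ :=
        funext fun γ => by
          show W (m (mob γ.1 z)) = W (mob (φ γ).1 (m z))
          rw [hφ γ z hz]
      rw [e]
      exact h) _ hi1
  have hterm : ∀ γ : CongruenceSubgroup.Gamma0 N,
      ∫ w in UH, (W (mob γ.1⁻¹ w) : ℂ) * ((W (m w) : ℂ) * Φ w) =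
      ∫ w in UH, (W (m (mob γ.1 w)) : ℂ) * ((W w : ℂ) * Φ w) := by
    intro γ
    have h1 := unf_int γ.1 unf_measSet subset_rfl
      (fun w => (W (mob γ.1⁻¹ w) : ℂ) * ((W (m w) : ℂ) * Φ w))
    rw [unf_image] at h1
    rw [h1]
    refine setIntegral_congr_fun unf_measSet fun z hz => ?_
    show ((‖jj γ.1 z‖ ^ 4)⁻¹ : ℝ) • ((W (mob γ.1⁻¹ (mob γ.1 z)) : ℂ) *
      ((W (m (mob γ.1 z)) : ℂ) * Φ (mob γ.1 z))) = (W (m (mob γ.1 z)) : ℂ) * ((W z : ℂ) * Φ z)
    rw [unf_inv_mob γ.1 hz, hΦe γ.1 γ.2 z hz, Complex.real_smul]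
    have hj : (‖jj γ.1 z‖ : ℂ) ≠ 0 := by
      have := unf_jj_ne γ.1 hz
      exact_mod_cast norm_ne_zero_iff.mpr this
    push_cast
    field_simp
  simp only [hterm] at s1
  exact s1.unique s2

end Pool.Agent.Helper96.MP
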